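import Pool.Agent.Helper95.HZ.LRg

/-! # HZ: LR, the lonely blow-up exists -/

set_option autoImplicit false

open MulAction Pointwise

namespace Pool.Agent.Helper93.HZ

open Ctx

variable {G : Type} [Group G]

namespace LrC

variable {X : Ctx G} {v : X.V} {a : X.U} {z : G} {k : ℕ} (C : LrC X v a z k)
variable {R : Cx G} {e : R.V → LrW X v} (hR : LrR X v a z R e)

include C

theorem cl_eq : cl X.D X.K v = {v} := by
  ext v'
  constructor
  · intro h
    have h' : Relation.ReflTransGen (TF X.D X.K) v v' := h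
    rcases Relation.ReflTransGen.cases_head h' with h1 | ⟨y, h1, -⟩
    · exact h1.symm
    · exact absurd (C.hl y h1.1) h1.2.2.2
  · rintro rfl
    exact Relation.ReflTransGen.refl

/-- powers of `z` move the attaching edge -/
theorem sset_z (hSL : ST_SL) (m : ℤ) (y : X.V) :
    z ^ m • y ∈ Sset X.P v a (X.P.N v a) ↔
      y ∈ Sset X.P v (z ^ (-m) • a) (z ^ (-m) • X.P.N v a) := by
  have h := C.sset_smul hSL (z ^ (-m)) C.Ax_a (z ^ m • y)
  rw [C.zpv, ← mul_smul, ← zpow_add, neg_add_cancel, zpow_zero, one_smul] at h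
  exact h.symm

theorem fr_fin (hFT : ST_FT) {y : X.V} (hy : X.K.adj v y) : {w | X.K.tri v y w}.Finite := by
  refine hFT G X.K v y hy ?_
  have : stabilizer G v ⊓ stabilizer G y = ⊥ := by
    rw [eq_bot_iff]
    rintro g ⟨h1, h2⟩
    exact C.hl y hy g h1 h2
  rw [this]
  infer_instance

/-- finitely many exits along an orbit -/
theorem exit_orb (hSL : ST_SL) (hFT : ST_FT) {y : X.V} (hy : X.K.adj v y) :
    {m : ℤ | z ^ m • y ∈ Sset X.P v a (X.P.N v a) ∧
      ∃ w, X.K.tri v (z ^ m • y) w ∧ w ∉ Sset X.P v a (X.P.N v a)}.Finite := by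
  classical
  obtain ⟨n₀, hn₀⟩ := C.sset_low hSL hy
  have hfin := C.fr_fin hFT hy
  have h1 : ∀ w : X.V, ∃ n : ℕ, X.K.tri v y w → ∀ m ≥ n,
      w ∈ Sset X.P v (z ^ m • a) (z ^ m • X.P.N v a) := by
    intro w
    by_cases hw : X.K.tri v y w
    · obtain ⟨n, hn⟩ := C.sset_far hSL (X.K.tri_adj' hw).2.2.2.2.2
      exact ⟨n, fun _ => hn⟩
    · exact ⟨0, fun h => absurd h hw⟩
  choose f hf using h1
  set n₁ : ℕ := hfin.toFinset.sup f with hn₁
  refine (Set.finite_Icc (-(n₁ : ℤ)) (n₀ : ℤ)).subset ?_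
  rintro m ⟨h2, w, h3, h4⟩
  rw [C.sset_z hSL] at h2
  constructor
  · by_contra hlt
    obtain ⟨j, hj⟩ := Int.eq_ofNat_of_zero_le (show 0 ≤ -m by omega)
    have h5 : X.K.tri v y (z ^ (-m) • w) := by
      have := X.K.smul_tri (z ^ (-m)) _ _ _ h3
      rwa [C.zpv, ← mul_smul, ← zpow_add, neg_add_cancel, zpow_zero, one_smul] at this
    have h6 : f (z ^ (-m) • w) ≤ n₁ := Finset.le_sup (f := f) (hfin.mem_toFinset.2 h5)
    have h7 := hf _ h5 j (by omega)
    apply h4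
    have h8 := C.sset_z hSL m (z ^ (-m) • w)
    rw [← mul_smul, ← zpow_add, add_neg_cancel, zpow_zero, one_smul] at h8
    rw [h8]
    rw [← zpow_natCast, ← hj] at h7
    exact h7
  · by_contra hlt
    obtain ⟨j, hj⟩ := Int.eq_ofNat_of_zero_le (show 0 ≤ m by omega)
    refine hn₀ j (by omega) ?_
    rw [← zpow_natCast, ← hj, ← zpow_neg]
    exact h2

/-- finitely many exits -/
theorem exQ_fin (hSL : ST_SL) (hFT : ST_FT) : (X.exQ v a (X.P.N v a)).Finite := by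
  classical
  obtain ⟨F, hF1, -, hF2, -⟩ := FinOrb.reps X.K.finE
  have h0 : ∀ p : X.V × X.V, ∃ y : X.V, (p ∈ F → ∀ g : G, g • p.1 = v → X.K.adj v y ∧
      ∃ m : ℤ, g • p.2 = z ^ m • y) := by
    intro p
    by_cases hp : p ∈ F ∧ ∃ g : G, g • p.1 = v
    · obtain ⟨hp1, g₀, hg₀⟩ := hp
      refine ⟨g₀ • p.2, fun _ g hg => ⟨?_, ?_⟩⟩
      · have := X.K.smul_adj g₀ _ _ (hF1 p hp1)
        rwa [hg₀] at this
      · obtain ⟨m, hm⟩ := C.stab (g := g * g₀⁻¹) (by
          rw [mul_smul, inv_smul_eq_iff.2 hg₀.symm, hg])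
        exact ⟨m, by rw [← hm, mul_smul, inv_smul_smul]⟩
    · refine ⟨v, fun h1 g hg => absurd ⟨h1, g, hg⟩ hp⟩
  choose f hf using h0
  set E : X.V → Set ℤ := fun y => {m : ℤ | z ^ m • y ∈ Sset X.P v a (X.P.N v a) ∧
      ∃ w, X.K.tri v (z ^ m • y) w ∧ w ∉ Sset X.P v a (X.P.N v a)} with hE
  have hfin : (⋃ p ∈ {p | p ∈ F ∧ X.K.adj v (f p)}, (fun m : ℤ => (v, z ^ m • f p)) ''
      E (f p)).Finite := by
    refine Set.Finite.biUnion (F.finite_toSet.subset (fun p hp => hp.1)) ?_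
    intro p hp
    exact (C.exit_orb hSL hFT hp.2).image _
  refine hfin.subset ?_
  rintro ⟨v', y⟩ ⟨h1, h2, h3⟩
  rw [C.cl_eq] at h1
  have h1' : v' = v := h1
  subst h1'
  have h4 : y ∈ Sset X.P v' a (X.P.N v' a) ∧ ∃ w, X.K.tri v' y w ∧
      w ∉ Sset X.P v' a (X.P.N v' a) := by
    rcases h3 with ⟨-, h4, w, h5, h6⟩ | ⟨h4, -⟩
    · refine ⟨h4, w, h5, fun h7 => h6 ?_⟩
      exact ((hSL G X.D X.K X.P X.red X.nmax.1 X.nd v' _ _ C.hv C.Ax_a).2.2.2.2.1 y w h4 h5).1 h7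
    · exact absurd h4 (lr_nn (X.P.fN v') (C.nf a))
  have hadj : X.K.adj v' y := h4.1.1
  obtain ⟨p, hp, g, hg⟩ := hF2 (v', y) hadj
  have hg1 : g • p.1 = v' := congrArg Prod.fst hg
  have hg2 : g • p.2 = y := congrArg Prod.snd hg
  obtain ⟨k1, m, k2⟩ := hf p hp g hg1
  rw [hg2] at k2
  rw [Set.mem_iUnion₂]
  refine ⟨p, ⟨hp, k1⟩, m, ?_, ?_⟩
  · rw [hE]
    show z ^ m • f p ∈ _ ∧ _
    rw [← k2]
    exact h4
  · show (v', z ^ m • f p) = (v', y)
    rw [k2]

include hR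

theorem delta2 (hSL : ST_SL) (hTFC : ST_TFC) (hFT : ST_FT)
    (hex : ∀ u w, Ax X.P v u w → (X.exQ v u w).ncard ≤ 2) :
    oc G {s : Set R.V | ∃ p q r, R.tri p q r ∧ lrbs (e p) = lrbs (e q) ∧
      s = {p, q, r}} ≤ 2 := by
  have hfin := C.exQ_fin hSL hFT
  set Ds : X.V → Set R.V := fun y => e ⁻¹' {lri v 1, lri v z, lrpi X v a z y v (X.P.N v a)}
    with hDs
  have hsub : (fun s : Set R.V => orbit G s) '' {s : Set R.V | ∃ p q r, R.tri p q r ∧
      lrbs (e p) = lrbs (e q) ∧ s = {p, q, r}} ⊆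
      (fun p : X.V × X.V => orbit G (Ds p.2)) '' X.exQ v a (X.P.N v a) := by
    rintro _ ⟨s, ⟨p, q, r, ht, hb, rfl⟩, rfl⟩
    have hd := C.tri_D hR hSL hTFC ht hb
    obtain ⟨x, y, u, w, h, h1, h2, h3, h4, h5, h6, h7, h8, h9⟩ := C.dt_char hSL hTFC hd
    have hx : x = h • v := h7.1.1
    subst hx
    have hw : X.P.N (h • v) w = u := h4.2.1
    have hu : u = h • X.P.N v a := by rw [← hw, h6, X.P.eN]
    have hadj : X.K.adj v (h⁻¹ • y) := by
      have := X.K.smul_adj h⁻¹ _ _ h1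
      rwa [inv_smul_smul] at this
    have hS : h⁻¹ • y ∈ Sset X.P v a (X.P.N v a) := ((C.L_iff' hSL h _ _ _).1 h7.1).2.2
    -- the exit triangle
    obtain ⟨w₂, t₂, hN⟩ : ∃ w₂, X.K.tri (h • v) y w₂ ∧ X.P.N w₂ u ≠ w := by
      have hv' : ¬ EllV X.D X.K (h • v) := fun h' => C.hv ((EllV_smul_iff h).1 h')
      have h10 := (X.red.R2 (h • v) (Or.inr hv')).2 y h1
      obtain ⟨-, w₂, -, c₂, -, t₂, -, d₂, -, n, hn⟩ := h2.2 h10
      refine ⟨w₂, t₂, fun hcon => ?_⟩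
      have hne : w ≠ u := h4.1.ne'
      have hyu : X.P.N y u = w := h4.2.2
      rcases n with _ | n
      · rw [Function.iterate_zero, id] at hn
        subst hn
        have := d₂.2.1 (hyu.trans hcon.symm)
        exact hne (hyu.symm.trans this)
      · rw [Function.iterate_succ_apply'] at hn
        have k1 : X.P.N y ((X.P.N y)^[n] c₂) ≠ (X.P.N y)^[n] c₂ := by
          intro h11
          rw [hn] at h11
          rw [← h11, hyu] at hn
          exact hne hn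
        have k2 := (lr_iter (X.P.fN w₂) (X.P.fN y) (lr_symm d₂.2.1) n).1
        have k3 := (lr_step (X.P.fN w₂) (X.P.fN y) k2 k1).1
        rw [hn, hcon] at k3
        have k4 := lr_nn (X.P.fN y) k1
        rw [hn, hyu] at k4
        exact k4 k3
    have hex' : (v, h⁻¹ • y) ∈ X.exQ v a (X.P.N v a) := by
      refine ⟨Relation.ReflTransGen.refl, C.hl _ hadj, Or.inl ⟨rfl, hS, h⁻¹ • w₂, ?_, ?_⟩⟩
      · have := X.K.smul_tri h⁻¹ _ _ _ t₂
        rwa [inv_smul_smul] at this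
      · intro hcon
        apply hN
        have h11 := X.P.eN h (h⁻¹ • w₂) (X.P.N v a)
        rw [smul_inv_smul] at h11
        rw [hu, h11, hcon, h6]
    refine ⟨_, hex', ?_⟩
    show orbit G (Ds (h⁻¹ • y)) = orbit G ({p, q, r} : Set R.V)
    refine orbit_eq_iff'.2 ⟨h, ?_⟩
    have hpi : lrpi X v a z y (h • v) u = h • lrpi X v a z (h⁻¹ • y) v (X.P.N v a) := by
      have h11 := C.pi_smul hSL hTFC h⁻¹ (X.K.symm _ _ h1) (lr_symm h2.1)
      rw [inv_smul_smul, hu, inv_smul_smul] at h11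
      rw [h11, smul_inv_smul, hu]
    rw [hpi] at h5
    have hset : ({e p, e q} : Set (LrW X v)) = {lri v h, lri v (h * z)} := by
      rcases h9 with ⟨e1, e2⟩ | ⟨e1, e2⟩
      · rw [e1, e2, Set.pair_comm]
      · rw [e1, e2]
    ext t
    rw [Set.mem_smul_set_iff_inv_smul_mem]
    show e (h⁻¹ • t) ∈ ({lri v 1, lri v z, lrpi X v a z (h⁻¹ • y) v (X.P.N v a)} :
      Set (LrW X v)) ↔ t ∈ ({p, q, r} : Set R.V)
    have h12 : t ∈ ({p, q, r} : Set R.V) ↔ (e t ∈ ({e p, e q} : Set (LrW X v)) ∨ e t = e r) := by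
      simp only [Set.mem_insert_iff, Set.mem_singleton_iff, hR.bij.1.eq_iff]
      tauto
    have h13 : ∀ w' : LrW X v, h⁻¹ • e t = w' ↔ e t = h • w' := fun w' => inv_smul_eq_iff
    rw [h12, hset, h5, hR.sm]
    simp only [Set.mem_insert_iff, Set.mem_singleton_iff, h13, lr_smul_i, mul_one]
    tauto
  calc _ ≤ ((fun p : X.V × X.V => orbit G (Ds p.2)) '' X.exQ v a (X.P.N v a)).ncard :=
        Set.ncard_le_ncard hsub (hfin.image _)
    _ ≤ (X.exQ v a (X.P.N v a)).ncard := Set.ncard_image_le hfin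
    _ ≤ 2 := hex _ _ C.Ax_a

end LrC

theorem st_LR (hSL : ST_SL) (hTFC : ST_TFC) (hLEG : ST_LEG) (hFT : ST_FT) (hPL : ST_PL) :
    ST_LR := by
  intro G _ X v hv hl hex
  obtain ⟨a, z, k, C⟩ := lr_exists X v hv hl
  obtain ⟨R, e, hR⟩ := C.R_ex hSL hTFC hPL
  have hfibv : ∀ p : R.V, lrbs (e p) = v → ∃ h, e p = lri v h ∧ ∃ m : ℤ, h = z ^ m := by
    intro p hp
    rcases lr_cases (e p) with ⟨x, hx, h1⟩ | ⟨h, h1⟩
    · rw [h1, lrbs_l] at hp
      exact absurd (hp.trans (one_smul G v).symm) (hx 1)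
    · rw [h1, lrbs_i] at hp
      exact ⟨h, h1, C.stab hp⟩
  refine ⟨{
    R := R
    ρ := fun p => lrbs (e p)
    ρ_smul := ?_
    surj := ?_
    z := z
    zinf := C.z1
    zstab := C.hz
    lonely := hl
    free := ?_
    fib := ?_
    inj := ?_
    adj1 := ?_
    ss := ?_
    trik := ?_
    lift := ?_
    cells := ?_
    alpha := ?_
    beta := ?_
    gamma := ?_
    delta1 := ?_
    delta2 := ?_ }⟩
  · intro g p
    rw [hR.sm, lrbs_smul]
  · intro x
    by_cases hx : ∀ g : G, x ≠ g • v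
    · obtain ⟨p, hp⟩ := hR.bij.2 (lrl x hx)
      exact ⟨p, by rw [hp, lrbs_l]⟩
    · push Not at hx
      obtain ⟨g, hg⟩ := hx
      obtain ⟨p, hp⟩ := hR.bij.2 (lri v g)
      exact ⟨p, by rw [hp, lrbs_i, hg]⟩
  · intro p hp g hg
    obtain ⟨h, h1, -⟩ := hfibv p hp
    have h2 := congrArg e hg
    rw [hR.sm, h1, lr_smul_i] at h2
    have := lri_inj h2
    simpa using this
  · intro p p' hp hp'
    obtain ⟨h, h1, m, rfl⟩ := hfibv p hp
    obtain ⟨h', h1', m', rfl⟩ := hfibv p' hp'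
    refine ⟨m' - m, hR.bij.1 ?_⟩
    rw [hR.sm, h1, h1', lr_smul_i, ← zpow_add, sub_add_cancel]
  · intro p p' hb hno
    apply hR.bij.1
    rcases lr_cases (e p) with ⟨x, hx, h1⟩ | ⟨h, h1⟩
    · rcases lr_cases (e p') with ⟨x', hx', h1'⟩ | ⟨h', h1'⟩
      · have hb' : lrbs (e p) = lrbs (e p') := hb
        rw [h1, h1', lrbs_l, lrbs_l] at hb'
        subst hb'
        rw [h1, h1']
      · exfalso
        have hb' : lrbs (e p) = lrbs (e p') := hb
        rw [h1', lrbs_i] at hb'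
        exact hno h' hb'
    · exfalso
      apply hno h
      show lrbs (e p) = _
      rw [h1, lrbs_i]
  · intro p p' h
    rcases C.adj_bs hR hSL hTFC h with h1 | h1
    · exact Or.inl h1.1
    · exact Or.inr h1.1
  · intro p p' hp hp'
    obtain ⟨h, h1, m, rfl⟩ := hfibv p hp
    obtain ⟨h', h1', m', rfl⟩ := hfibv p' hp'
    have e1 : ∀ q q' : R.V, ∀ g g' : G, e q = lri v g → e q' = lri v g' →
        (q = q' ↔ g = g') := by
      intro q q' g g' k1 k2
      rw [← hR.bij.1.eq_iff, k1, k2]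
      exact ⟨lri_inj, fun h => by rw [h]⟩
    have hz1 : e (z • p) = lri v (z * z ^ m) := by rw [hR.sm, h1, lr_smul_i]
    have hz2 : e (z⁻¹ • p) = lri v (z⁻¹ * z ^ m) := by rw [hR.sm, h1, lr_smul_i]
    rw [e1 _ _ _ _ h1' hz1, e1 _ _ _ _ h1' hz2]
    constructor
    · intro h2
      rcases C.adj_bs hR hSL hTFC h2 with ⟨-, h3⟩ | h3
      · rw [h1, h1', lrss_i] at h3
        rcases h3 with h3 | h3
        · left
          rw [h3]
          group
        · right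
          rw [h3]
          group
      · exfalso
        have h4 := h3.1
        have hp1 : lrbs (e p) = v := hp
        have hp2 : lrbs (e p') = v := hp'
        rw [hp1, hp2] at h4
        exact X.K.irrefl v h4
    · intro h2
      refine (hR.adj _ _).2 (Or.inl ?_)
      rw [h1, h1', lrss_i]
      rcases h2 with h2 | h2
      · left
        rw [h2]
        group
      · right
        rw [h2]
        group
  · intro p q r h
    have hne : ∀ {x y : X.V}, X.K.adj x y → x ≠ y := fun h e => X.K.irrefl _ (e ▸ h)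
    rcases (hR.tri p q r).1 h with h1 | h1 | h1 | h1
    · exact Or.inl (C.lt_bs hSL hTFC h1).1
    · obtain ⟨k1, k2, -⟩ := C.dt_bs hSL hTFC h1
      exact Or.inr (Or.inl ⟨k1, (hne k2).symm⟩)
    · obtain ⟨k1, k2, -⟩ := C.dt_bs hSL hTFC h1
      exact Or.inr (Or.inr (Or.inl ⟨k1, (hne k2).symm⟩))
    · obtain ⟨k1, k2, -⟩ := C.dt_bs hSL hTFC h1
      refine Or.inr (Or.inr (Or.inr ⟨k1.symm, ?_⟩))
      rw [k1] at k2
      exact (hne k2).symm
  · intro x y w h
    obtain ⟨c, hc, -⟩ := (hLEG G X x y w h).1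
    obtain ⟨a1, a2, a3, a4, a5, a6⟩ := X.K.tri_adj' h
    obtain ⟨n1, n2, n3⟩ := X.K.tri_ne h
    obtain ⟨p, hp⟩ := hR.bij.2 (lrpi X v a z x y c)
    obtain ⟨q, hq⟩ := hR.bij.2 (lrpi X v a z y w c)
    obtain ⟨r, hr⟩ := hR.bij.2 (lrpi X v a z w x c)
    have bp : lrbs (e p) = x := by rw [hp]; exact C.bs_pi hSL hTFC a1 hc.1
    have bq : lrbs (e q) = y := by rw [hq]; exact C.bs_pi hSL hTFC a2 hc.2.1
    have br : lrbs (e r) = w := by rw [hr]; exact C.bs_pi hSL hTFC a3 (lr_symm hc.2.2)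
    have hlt : lrlt X v a z (e p) (e q) (e r) := ⟨x, y, w, c, h, hc, hp, hq, hr⟩
    refine ⟨p, q, r, bp, bq, br, LrC.tri_of_lt hR hlt, ?_⟩
    intro p' q' r' bp' bq' br' h'
    have hlt' := C.tri_lt hR hSL hTFC h' (by
      show lrbs (e p') ≠ lrbs (e q')
      exact fun h => n1 (bp'.symm.trans (h.trans bq'))) (fun h => n2 (bq'.symm.trans (h.trans br')))
      (fun h => n3 (bp'.symm.trans (h.trans br')))
    exact C.lift_unique hR hSL hTFC hLEG hlt hlt' (Eq.trans bp' bp.symm) (Eq.trans bq' bq.symm)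
      (Eq.trans br' br.symm)
  · intro x y h
    obtain ⟨c, hc⟩ := lr_hull_ne X hTFC hLEG h
    obtain ⟨p, hp⟩ := hR.bij.2 (lrpi X v a z x y c)
    obtain ⟨q, hq⟩ := hR.bij.2 (lrpi X v a z y x c)
    refine ⟨p, q, ?_, ?_, (hR.adj p q).2 (Or.inr ⟨x, y, h, Or.inl ⟨c, hc, hp, hq⟩⟩)⟩
    · show lrbs (e p) = x
      rw [hp]; exact C.bs_pi hSL hTFC h hc.1
    · show lrbs (e q) = y
      rw [hq]; exact C.bs_pi hSL hTFC (X.K.symm _ _ h) (lr_symm hc.1)
  · intro p q h hne hno p' q' h' hp hq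
    exact C.alpha hR hSL hTFC p q h hne hno p' q' h' hp hq
  · intro y hy hβ
    exact C.beta hR hSL hTFC hLEG hFT y hy hβ
  · intro q s hq hs hadj r r' ht ht' hr hr'
    exact C.gamma hR hSL hTFC q s hq hs hadj r r' ht ht' hr hr'
  · exact C.delta1 hR hSL hTFC hLEG
  · exact C.delta2 hR hSL hTFC hFT hex

end Pool.Agent.Helper93.HZ
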