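import Pool.Agent.Helper93.HZ.Blow
import Pool.Agent.Helper93.HZ.Lib

/-! # HZ: LR, part 1: fields, positions at a lonely hyperbolic vertex -/

set_option autoImplicit false

open MulAction Pointwise

namespace Pool.Agent.Helper93.HZ

open Ctx

section fld

variable {U : Type} {T : SimpleGraph U} {N N' M : U → U}

theorem lr_adj (hN : IsField T N) {u : U} (h : N u ≠ u) : T.Adj u (N u) :=
  (hN.1 u).resolve_left h

theorem lr_nn (hN : IsField T N) {u : U} (h : N u ≠ u) : N (N u) ≠ u :=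
  (hN.2 u (N u) (lr_adj hN h)).1 rfl

theorem lr_flip (hN : IsField T N) {u w : U} (h : T.Adj u w) (h' : N u ≠ w) : N w = u := by
  by_contra hc
  exact h' ((hN.2 u w h).2 hc)

theorem lr_flip' (hN : IsField T N) {u w : U} (h : T.Adj u w) (h' : N u = w) : N w ≠ u :=
  (hN.2 u w h).1 h'

theorem lr_symm {c : U} (h : OnI N N' c) : OnI N' N c := fun e => e.trans (h e.symm)

theorem lr_step (hN : IsField T N) (hN' : IsField T N') {c : U} (h : OnI N N' c)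
    (h' : N' c ≠ c) : N (N' c) = c ∧ OnI N N' (N' c) := by
  have h1 : N c ≠ N' c := fun e => h' (e ▸ h e)
  have h2 := lr_flip hN (lr_adj hN' h') h1
  refine ⟨h2, fun e => ?_⟩
  rw [h2] at e
  exact absurd e.symm (lr_nn hN' h')

theorem lr_iter (hN : IsField T N) (hN' : IsField T N') {c : U} (h : OnI N N' c) (j : ℕ) :
    OnI N N' (N'^[j] c) ∧ ∃ j' : ℕ, N^[j'] (N'^[j] c) = c := by
  induction j with
  | zero => exact ⟨h, 0, rfl⟩
  | succ j ih =>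
    obtain ⟨h1, j', h2⟩ := ih
    rw [Function.iterate_succ_apply']
    by_cases h3 : N' (N'^[j] c) = N'^[j] c
    · rw [h3]
      exact ⟨h1, j', h2⟩
    · obtain ⟨h4, h5⟩ := lr_step hN hN' h1 h3
      refine ⟨h5, j' + 1, ?_⟩
      rw [Function.iterate_succ_apply, h4, h2]

theorem lr_leg (hN : IsField T N) (hN' : IsField T N') (hf : ∀ u, N u ≠ u) {c : U}
    (h : OnI N N' c) (n : ℕ) : N' (N^[n + 1] c) = N^[n] c := by
  have h1 := (lr_iter hN' hN (lr_symm h) n).1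
  have h2 := (lr_step hN' hN h1 (hf _)).1
  rw [Function.iterate_succ_apply']
  exact h2

/-- `I(N,N')` is totally ordered by following `N` -/
theorem lr_total (hT : T.IsTree) (hTFC : ST_TFC) (hN : IsField T N) (hN' : IsField T N') {c c' : U}
    (h : OnI N N' c) (h' : OnI N N' c') : (∃ n : ℕ, N^[n] c = c') ∨ ∃ n : ℕ, N^[n] c' = c := by
  obtain ⟨n, hn⟩ := (hTFC U T hT N N' hN hN').1 c c' h h'
  rcases hn with hn | hn
  · exact Or.inl ⟨n, hn.symm⟩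
  · right
    obtain ⟨-, j', hj⟩ := lr_iter hN hN' h n
    exact ⟨j', by rw [hn]; exact hj⟩

theorem lr_axN (hN : IsField T N) (hM : IsField T M) (hN' : ∀ u, N u ≠ u) {u : U}
    (h : N u ≠ M u) : M (N u) = u ∧ N (N u) ≠ M (N u) := by
  have h1 := lr_flip hM (lr_adj hN (hN' u)) h.symm
  exact ⟨h1, by rw [h1]; exact lr_nn hN (hN' u)⟩

theorem lr_axN_iter (hN : IsField T N) (hM : IsField T M) (hN' : ∀ u, N u ≠ u) (n : ℕ) :
    ∀ u, N u ≠ M u → N (N^[n] u) ≠ M (N^[n] u) := by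
  induction n with
  | zero => exact fun u h => h
  | succ n ih =>
    intro u h
    rw [Function.iterate_succ_apply]
    exact ih _ (lr_axN hN hM hN' h).2

theorem lr_axM (hN : IsField T N) (hM : IsField T M) (hM' : ∀ u, M u ≠ u) {u : U}
    (h : N u ≠ M u) : N (M u) = u ∧ N (M u) ≠ M (M u) := by
  have h1 := lr_flip hN (lr_adj hM (hM' u)) h
  exact ⟨h1, by rw [h1]; exact (lr_nn hM (hM' u)).symm⟩

theorem lr_axM_iter (hN : IsField T N) (hM : IsField T M) (hM' : ∀ u, M u ≠ u) (n : ℕ) :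
    ∀ u, N u ≠ M u → N^[n] (M^[n] u) = u ∧ N (M^[n] u) ≠ M (M^[n] u) := by
  induction n with
  | zero => exact fun u h => ⟨rfl, h⟩
  | succ n ih =>
    intro u h
    obtain ⟨h1, h2⟩ := ih u h
    obtain ⟨h3, h4⟩ := lr_axM hN hM hM' h2
    rw [Function.iterate_succ_apply' M]
    refine ⟨?_, h4⟩
    rw [Function.iterate_succ_apply, h3]
    exact h1

end fld

/-- potentials along `ℤ` -/
theorem lr_pot {H : Type} [Group H] (d : ℤ → H) : ∃ F : ℤ → H, ∀ m, F (m + 1) = F m * d m := by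
  let p : ℕ → H := fun n => Nat.rec 1 (fun n r => r * d n) n
  let q : ℕ → H := fun n => Nat.rec 1 (fun n r => r * (d (-(n + 1 : ℕ)))⁻¹) n
  have hp : ∀ n, p (n + 1) = p n * d n := fun n => rfl
  have hq : ∀ n, q (n + 1) = q n * (d (-(n + 1 : ℕ)))⁻¹ := fun n => rfl
  refine ⟨fun m => if 0 ≤ m then p m.toNat else q (-m).toNat, fun m => ?_⟩
  by_cases hm : 0 ≤ m
  · obtain ⟨n, rfl⟩ := Int.eq_ofNat_of_zero_le hm
    have h1 : (0 : ℤ) ≤ (n : ℤ) + 1 := by omega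
    have h2 : ((n : ℤ) + 1).toNat = n + 1 := by omega
    have h3 : ((n : ℤ)).toNat = n := by omega
    simp only [h1, hm, if_true, h2, h3, hp]
  · obtain ⟨n, hn⟩ := Int.eq_ofNat_of_zero_le (show 0 ≤ -m - 1 by omega)
    have h1 : m = -(n + 1 : ℕ) := by push_cast; omega
    have h2 : (-m).toNat = n + 1 := by omega
    by_cases hn0 : n = 0
    · subst hn0
      have h3 : (0 : ℤ) ≤ m + 1 := by omega
      have h4 : (m + 1).toNat = 0 := by omega
      simp only [h3, hm, if_true, if_false, h2, h4]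
      rw [hq, ← h1]
      show (1 : H) = 1 * (d m)⁻¹ * d m
      group
    · have h3 : ¬ (0 : ℤ) ≤ m + 1 := by omega
      have h4 : (-(m + 1)).toNat = n := by omega
      simp only [h3, hm, if_false, h2, h4]
      rw [hq, ← h1]
      group

variable {G : Type} [Group G]

/-- the situation at a lonely hyperbolic vertex `v`: `a` lies on the axis, `z` generates the
stabilizer -/
structure LrC (X : Ctx G) (v : X.V) (a : X.U) (z : G) (k : ℕ) : Prop where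
  hv : ¬ EllV X.D X.K v
  hl : ∀ y, X.K.adj v y → Fr X.K v y
  nf : ∀ u, X.P.N v u ≠ u
  mf : ∀ u, X.P.M v u ≠ u
  hz : stabilizer G v = Subgroup.zpowers z
  z1 : ¬ IsOfFinOrder z
  k0 : 0 < k
  zN : ∀ u, X.P.N v u ≠ X.P.M v u → z • u = (X.P.N v)^[k] u
  ha : X.P.N v a ≠ X.P.M v a

theorem lr_exists (X : Ctx G) (v : X.V) (hv : ¬ EllV X.D X.K v)
    (hl : ∀ y, X.K.adj v y → Fr X.K v y) : ∃ a z k, LrC X v a z k := by
  obtain ⟨h1, h2, ⟨z, k, h3, h4, h5, h6⟩, a, ha⟩ := X.P.hyp v hv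
  exact ⟨a, z, k, hv, hl, h1, h2, h3, h4, h5, h6, ha⟩

/-- `h` is ahead of `c` on the way to `ξ_x`, and `y` is attached to the edge `h • (a, N v a)` -/
def lrL (X : Ctx G) (v : X.V) (a : X.U) (x y : X.V) (c : X.U) (h : G) : Prop :=
  x = h • v ∧ (∃ j : ℕ, (X.P.N x)^[j] c = h • a) ∧
    y ∈ Sset X.P x (h • a) (h • X.P.N v a)

/-- the position of `x` seen along `{x,y}` at `c` -/
def lrP (X : Ctx G) (v : X.V) (a : X.U) (z : G) (x y : X.V) (c : X.U) (h : G) : Prop :=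
  lrL X v a x y c h ∧ ¬ lrL X v a x y c (h * z⁻¹)

namespace LrC

variable {X : Ctx G} {v : X.V} {a : X.U} {z : G} {k : ℕ} (C : LrC X v a z k)

include C

theorem zv : z • v = v := by
  have : z ∈ stabilizer G v := by rw [C.hz]; exact Subgroup.mem_zpowers z
  exact this

theorem zpv (m : ℤ) : z ^ m • v = v := by
  have h : z ^ m ∈ stabilizer G v := by
    rw [C.hz]; exact Subgroup.mem_zpowers_iff.2 ⟨m, rfl⟩
  exact h

theorem stab {g : G} (h : g • v = v) : ∃ m : ℤ, g = z ^ m := by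
  have h1 : g ∈ stabilizer G v := h
  rw [C.hz] at h1
  obtain ⟨m, hm⟩ := Subgroup.mem_zpowers_iff.1 h1
  exact ⟨m, hm.symm⟩

theorem zinj {m n : ℤ} (h : z ^ m = z ^ n) : m = n :=
  injective_zpow_iff_not_isOfFinOrder.2 C.z1 h

theorem coset {g g' : G} (h : g • v = g' • v) : ∃ m : ℤ, g' = g * z ^ m := by
  obtain ⟨m, hm⟩ := C.stab (g := g⁻¹ * g') (by rw [mul_smul, ← h, inv_smul_smul])
  exact ⟨m, by rw [← hm]; group⟩

/-- axis points are mapped by powers of `z` -/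
theorem zpow_smul (n : ℕ) : ∀ u, X.P.N v u ≠ X.P.M v u → z ^ n • u = (X.P.N v)^[k * n] u := by
  induction n with
  | zero => intro u _; simp
  | succ n ih =>
    intro u hu
    rw [pow_succ, mul_smul, C.zN u hu, ih _ (lr_axN_iter (X.P.fN v) (X.P.fM v) C.nf k u hu),
      ← Function.iterate_add_apply]
    rfl

theorem Ax_n (n : ℕ) : Ax X.P v ((X.P.N v)^[n] a) ((X.P.N v)^[n + 1] a) := by
  have h := lr_axN_iter (X.P.fN v) (X.P.fM v) C.nf n a C.ha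
  rw [Function.iterate_succ_apply']
  exact ⟨rfl, (lr_axN (X.P.fN v) (X.P.fM v) C.nf h).1, C.nf _⟩

theorem Ax_m (n : ℕ) : Ax X.P v ((X.P.M v)^[n + 1] a) ((X.P.M v)^[n] a) := by
  have h := (lr_axM_iter (X.P.fN v) (X.P.fM v) C.mf n a C.ha).2
  rw [Function.iterate_succ_apply']
  exact ⟨(lr_axM (X.P.fN v) (X.P.fM v) C.mf h).1, rfl, C.nf _⟩

theorem Ax_a : Ax X.P v a (X.P.N v a) := C.Ax_n 0

theorem sset_smul (hSL : ST_SL) (g : G) {u w : X.U} (h : Ax X.P v u w) (y : X.V) :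
    g • y ∈ Sset X.P (g • v) (g • u) (g • w) ↔ y ∈ Sset X.P v u w :=
  (hSL G X.D X.K X.P X.red X.nmax.1 X.nd v u w C.hv h).2.2.2.2.2 g y

theorem sset_mono (hSL : ST_SL) {y : X.V} (h : y ∈ Sset X.P v a (X.P.N v a)) (n : ℕ) :
    y ∈ Sset X.P v ((X.P.N v)^[n] a) ((X.P.N v)^[n + 1] a) := by
  induction n with
  | zero => exact h
  | succ n ih =>
    have h1 := (hSL G X.D X.K X.P X.red X.nmax.1 X.nd v _ _ C.hv (C.Ax_n n)).1 ih
    have h2 : X.P.N v ((X.P.N v)^[n + 1] a) = (X.P.N v)^[n + 1 + 1] a :=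
      (Function.iterate_succ_apply' _ _ _).symm
    rw [h2] at h1
    exact h1

theorem L_iff (hSL : ST_SL) (h : G) (y : X.V) (c : X.U) :
    lrL X v a (h • v) (h • y) (h • c) h ↔
      (∃ j : ℕ, (X.P.N v)^[j] c = a) ∧ y ∈ Sset X.P v a (X.P.N v a) := by
  unfold lrL
  rw [C.sset_smul hSL h C.Ax_a]
  constructor
  · rintro ⟨-, ⟨j, hj⟩, h2⟩
    rw [X.P.N_iter] at hj
    exact ⟨⟨j, smul_left_cancel h hj⟩, h2⟩
  · rintro ⟨⟨j, hj⟩, h2⟩
    exact ⟨rfl, ⟨j, by rw [X.P.N_iter, hj]⟩, h2⟩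

theorem L_iff' (hSL : ST_SL) (h : G) (x y : X.V) (c : X.U) :
    lrL X v a x y c h ↔ x = h • v ∧ (∃ j : ℕ, (X.P.N v)^[j] (h⁻¹ • c) = a) ∧
      h⁻¹ • y ∈ Sset X.P v a (X.P.N v a) := by
  constructor
  · intro h0
    obtain ⟨h1, -, -⟩ := id h0
    refine ⟨h1, ?_⟩
    subst h1
    rw [← C.L_iff hSL h (h⁻¹ • y) (h⁻¹ • c), smul_inv_smul, smul_inv_smul]
    exact h0
  · rintro ⟨rfl, h0⟩
    rw [← C.L_iff hSL h (h⁻¹ • y) (h⁻¹ • c), smul_inv_smul, smul_inv_smul] at h0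
    exact h0

theorem L_smul (hSL : ST_SL) (g h : G) (x y : X.V) (c : X.U) :
    lrL X v a (g • x) (g • y) (g • c) (g * h) ↔ lrL X v a x y c h := by
  have e1 : (g * h)⁻¹ • g • c = h⁻¹ • c := by rw [mul_inv_rev, mul_smul, inv_smul_smul]
  have e2 : (g * h)⁻¹ • g • y = h⁻¹ • y := by rw [mul_inv_rev, mul_smul, inv_smul_smul]
  rw [C.L_iff' hSL, C.L_iff' hSL, e1, e2, mul_smul]
  constructor
  · rintro ⟨h1, h2⟩
    exact ⟨smul_left_cancel g h1, h2⟩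
  · rintro ⟨h1, h2⟩
    exact ⟨by rw [h1], h2⟩

theorem L_up (hSL : ST_SL) {h : G} {x y : X.V} {c : X.U} (hL : lrL X v a x y c h) :
    lrL X v a x y c (h * z) := by
  obtain ⟨rfl, ⟨j, hj⟩, h2⟩ := hL
  have e1 : (h * z) • v = h • v := by rw [mul_smul, C.zv]
  have e2 : z • a = (X.P.N v)^[k] a := C.zN a C.ha
  have e3 : z • X.P.N v a = (X.P.N v)^[k + 1] a := by
    rw [Function.iterate_succ_apply', ← e2]
    conv_rhs => rw [show X.P.N v = X.P.N (z • v) by rw [C.zv]]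
    rw [X.P.eN]
  refine ⟨e1.symm, ⟨k + j, ?_⟩, ?_⟩
  · rw [Function.iterate_add_apply, hj, mul_smul, e2, X.P.N_iter]
  · have h3 := (C.sset_smul hSL h C.Ax_a (h⁻¹ • y)).1 (by rw [smul_inv_smul]; exact h2)
    have h4 := C.sset_mono hSL h3 k
    have h5 := (C.sset_smul hSL h (C.Ax_n k) (h⁻¹ • y)).2 h4
    rw [smul_inv_smul, ← e2, ← e3, ← mul_smul, ← mul_smul] at h5
    exact h5

theorem L_up' (hSL : ST_SL) {h : G} {x y : X.V} {c : X.U} (hL : lrL X v a x y c h) (n : ℕ) :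
    lrL X v a x y c (h * z ^ n) := by
  induction n with
  | zero => simpa using hL
  | succ n ih => rw [pow_succ, ← mul_assoc]; exact C.L_up hSL ih

omit C in
theorem L_mono {h : G} {x y : X.V} {c : X.U} (n : ℕ)
    (hL : lrL X v a x y ((X.P.N x)^[n] c) h) : lrL X v a x y c h := by
  obtain ⟨h1, ⟨j, hj⟩, h2⟩ := hL
  exact ⟨h1, ⟨j + n, by rw [Function.iterate_add_apply, hj]⟩, h2⟩

theorem zpow_z_a (n : ℕ) : z ^ n • a = (X.P.N v)^[k * n] a := C.zpow_smul n a C.ha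

theorem zpow_z_b (n : ℕ) : z ^ n • X.P.N v a = (X.P.N v)^[k * n + 1] a := by
  rw [C.zpow_smul n _ (lr_axN (X.P.fN v) (X.P.fM v) C.nf C.ha).2,
    Function.iterate_succ_apply]

theorem zneg_a (n : ℕ) : (z ^ n)⁻¹ • a = (X.P.M v)^[k * n] a := by
  obtain ⟨h1, h2⟩ := lr_axM_iter (X.P.fN v) (X.P.fM v) C.mf (k * n) a C.ha
  rw [inv_smul_eq_iff, C.zpow_smul n _ h2, h1]

theorem zneg_b (n : ℕ) : (z ^ (n + 1))⁻¹ • X.P.N v a = (X.P.M v)^[k * (n + 1) - 1] a := by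
  have hk := C.k0
  obtain ⟨m, hm⟩ : ∃ m, k * (n + 1) = m + 1 :=
    ⟨k * (n + 1) - 1, by
      have : 0 < k * (n + 1) := Nat.mul_pos hk (Nat.succ_pos n)
      omega⟩
  have h1 := C.zneg_a (n + 1)
  rw [hm] at h1
  rw [hm, Nat.add_sub_cancel]
  have h2 : X.P.N v ((z ^ (n + 1))⁻¹ • a) = (z ^ (n + 1))⁻¹ • X.P.N v a := by
    conv_lhs => rw [show X.P.N v = X.P.N ((z ^ (n + 1))⁻¹ • v) by
      rw [← zpow_natCast, ← zpow_neg, C.zpv]]
    rw [X.P.eN]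
  rw [← h2, h1, Function.iterate_succ_apply']
  exact (lr_axM (X.P.fN v) (X.P.fM v) C.mf
    (lr_axM_iter (X.P.fN v) (X.P.fM v) C.mf m a C.ha).2).1

/-- far ahead everything is attached -/
theorem sset_far (hSL : ST_SL) {y : X.V} (hy : X.K.adj v y) :
    ∃ n₀ : ℕ, ∀ n ≥ n₀, y ∈ Sset X.P v (z ^ n • a) (z ^ n • X.P.N v a) := by
  obtain ⟨k₀, hk₀⟩ := (hSL G X.D X.K X.P X.red X.nmax.1 X.nd v _ _ C.hv C.Ax_a).2.2.1 y hy
    (C.hl y hy)
  refine ⟨k₀, fun n hn => ?_⟩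
  rw [C.zpow_z_a, C.zpow_z_b]
  refine hk₀ (k * n) ?_
  calc k₀ ≤ n := hn
    _ ≤ k * n := Nat.le_mul_of_pos_left n C.k0

/-- far behind nothing is attached -/
theorem sset_low (hSL : ST_SL) {y : X.V} (hy : X.K.adj v y) :
    ∃ n₀ : ℕ, ∀ n ≥ n₀, y ∉ Sset X.P v ((z ^ n)⁻¹ • a) ((z ^ n)⁻¹ • X.P.N v a) := by
  obtain ⟨k₀, hk₀⟩ := (hSL G X.D X.K X.P X.red X.nmax.1 X.nd v _ _ C.hv C.Ax_a).2.2.2.1 y hy
    (C.hl y hy)
  refine ⟨k₀ + 1, fun n hn => ?_⟩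
  obtain ⟨m, rfl⟩ : ∃ m, n = m + 1 := ⟨n - 1, by omega⟩
  rw [C.zneg_a, C.zneg_b]
  have h0 : m + 1 ≤ k * (m + 1) := Nat.le_mul_of_pos_left _ C.k0
  obtain ⟨j, hj⟩ : ∃ j, k * (m + 1) = j + 1 := ⟨k * (m + 1) - 1, by omega⟩
  rw [hj, Nat.add_sub_cancel]
  exact hk₀ j (by omega)

omit C in
theorem oni_smul (g : G) {x y : X.V} {c : X.U} (h : OnI (X.P.N x) (X.P.N y) c) :
    OnI (X.P.N (g • x)) (X.P.N (g • y)) (g • c) := by
  intro e
  rw [X.P.eN, X.P.eN] at e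
  rw [X.P.eN, h (smul_left_cancel g e)]

omit C in
theorem center_smul (g : G) {x y w : X.V} {c : X.U}
    (h : IsCenter (X.P.N x) (X.P.N y) (X.P.N w) c) :
    IsCenter (X.P.N (g • x)) (X.P.N (g • y)) (X.P.N (g • w)) (g • c) := by
  obtain ⟨h1, h2, h3⟩ := h
  refine ⟨?_, ?_, ?_⟩
  · exact oni_smul g h1
  · exact oni_smul g h2
  · exact oni_smul g h3

theorem L_of (hSL : ST_SL) {h : G} {y : X.V} {c : X.U} {n : ℕ}
    (h1 : ∃ j : ℕ, (X.P.N v)^[j] (h⁻¹ • c) = z ^ n • a)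
    (h2 : h⁻¹ • y ∈ Sset X.P v (z ^ n • a) (z ^ n • X.P.N v a)) :
    lrL X v a (h • v) y c (h * z ^ n) := by
  obtain ⟨j, hj⟩ := h1
  have e1 : (h * z ^ n) • v = h • v := by
    rw [mul_smul, ← zpow_natCast, C.zpv]
  refine ⟨e1.symm, ⟨j, ?_⟩, ?_⟩
  · rw [mul_smul, ← hj, ← X.P.N_iter, smul_inv_smul]
  · rw [mul_smul, mul_smul, C.zpow_z_a, C.zpow_z_b] at *
    have := (C.sset_smul hSL h (C.Ax_n (k * n)) (h⁻¹ • y)).2 h2
    rwa [smul_inv_smul] at this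

theorem L_ex (hSL : ST_SL) (hTFC : ST_TFC) {h : G} {y : X.V} {c : X.U}
    (hy : X.K.adj (h • v) y) (hc : OnI (X.P.N (h • v)) (X.P.N y) c) :
    ∃ n : ℕ, lrL X v a (h • v) y c (h * z ^ n) := by
  have hy' : X.K.adj v (h⁻¹ • y) := by
    have := X.K.smul_adj h⁻¹ _ _ hy
    rwa [inv_smul_smul] at this
  have hc' : OnI (X.P.N v) (X.P.N (h⁻¹ • y)) (h⁻¹ • c) := by
    have := oni_smul (X := X) h⁻¹ hc
    rwa [inv_smul_smul] at this
  obtain ⟨n₀, hn₀⟩ := C.sset_far hSL hy'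
  have h1 := hn₀ n₀ le_rfl
  rw [C.zpow_z_a, C.zpow_z_b] at h1
  have hax := C.Ax_n (k * n₀)
  have h2 : OnI (X.P.N v) (X.P.N (h⁻¹ • y)) ((X.P.N v)^[k * n₀] a) := by
    have h3 := h1.2.1
    intro e
    rw [hax.1] at e
    exact absurd h3 (lr_flip' (X.P.fN _) (by
      have := lr_adj (X.P.fN v) hax.2.2
      rwa [hax.1] at this) e.symm)
  rcases lr_total X.D.tree hTFC (X.P.fN v) (X.P.fN _) hc' h2 with ⟨j, hj⟩ | ⟨j, hj⟩
  · refine ⟨n₀, C.L_of hSL ⟨j, ?_⟩ (hn₀ n₀ le_rfl)⟩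
    rw [hj, C.zpow_z_a]
  · refine ⟨n₀ + j, C.L_of hSL ⟨k * j - j, ?_⟩ (hn₀ _ (Nat.le_add_right _ _))⟩
    have h0 : j ≤ k * j := Nat.le_mul_of_pos_left _ C.k0
    rw [← hj, ← Function.iterate_add_apply, ← Function.iterate_add_apply, C.zpow_z_a, mul_add]
    have e : k * j - j + j + k * n₀ = k * n₀ + k * j := by omega
    rw [e]

theorem P_unique (hSL : ST_SL) {x y : X.V} {c : X.U} {h h' : G} (h1 : lrP X v a z x y c h)
    (h2 : lrP X v a z x y c h') : h = h' := by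
  obtain ⟨m, hm⟩ := C.coset (h1.1.1.symm.trans h2.1.1)
  rcases lt_trichotomy m 0 with hlt | rfl | hgt
  · exfalso
    obtain ⟨n, hn⟩ := Int.eq_ofNat_of_zero_le (show 0 ≤ -m - 1 by omega)
    apply h1.2
    have h3 := C.L_up' hSL h2.1 n
    have e : h' * z ^ n = h * z⁻¹ := by
      rw [hm, mul_assoc, ← zpow_natCast, ← zpow_add]
      have : m + (n : ℤ) = -1 := by omega
      rw [this, zpow_neg_one]
    rwa [e] at h3
  · rw [hm, zpow_zero, mul_one]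
  · exfalso
    obtain ⟨n, hn⟩ := Int.eq_ofNat_of_zero_le (show 0 ≤ m - 1 by omega)
    apply h2.2
    have h3 := C.L_up' hSL h1.1 n
    have e : h * z ^ n = h' * z⁻¹ := by
      rw [hm, mul_assoc, ← zpow_natCast]
      have : m = (n : ℤ) + 1 := by omega
      rw [this, zpow_add_one]
      group
    rwa [e] at h3

theorem P_ex (hSL : ST_SL) (hTFC : ST_TFC) {x y : X.V} {c : X.U} {h : G} (hx : x = h • v)
    (hy : X.K.adj x y) (hc : OnI (X.P.N x) (X.P.N y) c) :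
    ∃ h', lrP X v a z x y c h' := by
  classical
  subst hx
  obtain ⟨n, hn⟩ := C.L_ex hSL hTFC hy hc
  have hy' : X.K.adj v (h⁻¹ • y) := by
    have := X.K.smul_adj h⁻¹ _ _ hy
    rwa [inv_smul_smul] at this
  obtain ⟨n₁, hn₁⟩ := C.sset_low hSL hy'
  have h1 : ¬ lrL X v a (h • v) y c (h * (z ^ n₁)⁻¹) := by
    intro h0
    rw [C.L_iff' hSL] at h0
    obtain ⟨-, -, h3⟩ := h0
    rw [← C.sset_smul hSL (z ^ n₁)⁻¹ C.Ax_a, ← mul_smul] at h3
    have e1 : (z ^ n₁)⁻¹ * (h * (z ^ n₁)⁻¹)⁻¹ = h⁻¹ := by group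
    have e2 : (z ^ n₁)⁻¹ • v = v := by rw [← zpow_natCast, ← zpow_neg, C.zpv]
    rw [e1, e2] at h3
    exact hn₁ n₁ le_rfl h3
  have h2 : ∃ i : ℕ, lrL X v a (h • v) y c (h * (z ^ n₁)⁻¹ * z ^ i) := by
    refine ⟨n₁ + n, ?_⟩
    have e : h * (z ^ n₁)⁻¹ * z ^ (n₁ + n) = h * z ^ n := by
      rw [pow_add]; group
    rw [e]
    exact hn
  have h3 := Nat.find_spec h2
  have h4 : Nat.find h2 ≠ 0 := by
    intro e
    rw [e, pow_zero, mul_one] at h3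
    exact h1 h3
  obtain ⟨i, hi⟩ := Nat.exists_eq_succ_of_ne_zero h4
  refine ⟨_, h3, ?_⟩
  have h5 := Nat.find_min h2 (m := i) (by omega)
  have e : h * (z ^ n₁)⁻¹ * z ^ Nat.find h2 * z⁻¹ = h * (z ^ n₁)⁻¹ * z ^ i := by
    rw [hi, pow_succ]; group
  rwa [e]

theorem P_smul (hSL : ST_SL) (g h : G) (x y : X.V) (c : X.U) :
    lrP X v a z (g • x) (g • y) (g • c) (g * h) ↔ lrP X v a z x y c h := by
  unfold lrP
  rw [C.L_smul hSL, mul_assoc, C.L_smul hSL]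

/-- monotonicity of positions -/
theorem P_mono (hSL : ST_SL) {x y : X.V} {c : X.U} {h h' : G} (n : ℕ)
    (h1 : lrP X v a z x y c h) (h2 : lrP X v a z x y ((X.P.N x)^[n] c) h') :
    ∃ m : ℕ, h' = h * z ^ m := by
  obtain ⟨m, hm⟩ := C.coset (h1.1.1.symm.trans h2.1.1)
  rcases lt_or_ge m 0 with hlt | hge
  · exfalso
    obtain ⟨n', hn'⟩ := Int.eq_ofNat_of_zero_le (show 0 ≤ -m - 1 by omega)
    apply h1.2
    have h3 := C.L_up' hSL (L_mono n h2.1) n'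
    have e : h' * z ^ n' = h * z⁻¹ := by
      rw [hm, mul_assoc, ← zpow_natCast, ← zpow_add]
      have : m + (n' : ℤ) = -1 := by omega
      rw [this, zpow_neg_one]
    rwa [e] at h3
  · obtain ⟨n', hn'⟩ := Int.eq_ofNat_of_zero_le hge
    exact ⟨n', by rw [hm, hn', zpow_natCast]⟩

/-- the step lemma: `w → u = N x w` -/
theorem P_step (hSL : ST_SL) {x y : X.V} {u w : X.U} {h : G} (hu : X.P.N x w = u)
    (h1 : lrP X v a z x y w h) :
    lrP X v a z x y u h ∨ (lrP X v a z x y u (h * z) ∧ w = h • a) := by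
  by_cases h2 : lrL X v a x y u h
  · left
    refine ⟨h2, fun h3 => h1.2 ?_⟩
    exact L_mono 1 (by rw [Function.iterate_one, hu]; exact h3)
  · right
    obtain ⟨hx, ⟨j, hj⟩, hs⟩ := id h1.1
    have hj0 : j = 0 := by
      by_contra hne
      obtain ⟨i, rfl⟩ := Nat.exists_eq_succ_of_ne_zero hne
      apply h2
      rw [Function.iterate_succ_apply, hu] at hj
      exact ⟨hx, ⟨i, hj⟩, hs⟩
    subst hj0
    have hw : w = h • a := hj
    refine ⟨⟨?_, ?_⟩, hw⟩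
    · obtain ⟨-, -, hs'⟩ := C.L_up hSL h1.1
      refine ⟨by rw [mul_smul, C.zv]; exact hx, ⟨k - 1, ?_⟩, hs'⟩
      have hk : k - 1 + 1 = k := Nat.sub_add_cancel C.k0
      rw [← hu, ← Function.iterate_succ_apply, Nat.succ_eq_add_one, hk, hw, hx, X.P.N_iter,
        mul_smul, C.zN a C.ha]
    · rw [mul_inv_cancel_right]
      exact h2

/-- positions agree at centers -/
theorem P_center (hSL : ST_SL) {x y w : X.V} {c : X.U} {h : G} (ht : X.K.tri x y w)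
    (hc : IsCenter (X.P.N x) (X.P.N y) (X.P.N w) c) (h1 : lrL X v a x y c h) :
    lrL X v a x w c h := by
  obtain ⟨rfl, ⟨j, hj⟩, hs⟩ := h1
  have hnf : ∀ u, X.P.N (h • v) u ≠ u := by
    intro u e
    have := X.P.eN h v (h⁻¹ • u)
    rw [smul_inv_smul, e] at this
    exact C.nf (h⁻¹ • u) (by rw [← inv_smul_eq_iff] at this; exact this.symm)
  have hax : Ax X.P (h • v) (h • a) (h • X.P.N v a) := Ax_smul X.P h C.Ax_a
  have hv' : ¬ EllV X.D X.K (h • v) := fun e => C.hv ((EllV_smul_iff h).1 e)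
  refine ⟨rfl, ⟨j, hj⟩, ?_⟩
  refine ((hSL G X.D X.K X.P X.red X.nmax.1 X.nd _ _ _ hv' hax).2.2.2.2.1 y w hs ht).2 ?_
  rw [← hj]
  have e : h • X.P.N v a = (X.P.N (h • v))^[j + 1] c := by
    rw [Function.iterate_succ_apply', hj, X.P.eN]
  rw [e]
  exact lr_leg (X.P.fN _) (X.P.fN _) hnf hc.2.2 j

end LrC

end Pool.Agent.Helper93.HZ
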