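import Pool.Agent.Helper95.HZ.LRa

/-! # HZ: LR, part 2: the position data -/

set_option autoImplicit false

open MulAction Pointwise

namespace Pool.Agent.Helper93.HZ

open Ctx

variable {G : Type} [Group G]

/-- the vertices of the blow-up -/
def LrW (X : Ctx G) (v : X.V) : Type := {x : X.V // ∀ g : G, x ≠ g • v} ⊕ G

instance (X : Ctx G) (v : X.V) : MulAction G (LrW X v) where
  smul g p := match p with
    | .inl x => .inl ⟨g • x.1, fun g' e => x.2 (g⁻¹ * g') (by rw [mul_smul, ← e, inv_smul_smul])⟩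
    | .inr h => .inr (g * h)
  one_smul p := by
    rcases p with x | h
    · show (Sum.inl _ : LrW X v) = Sum.inl x
      congr 1
      exact Subtype.ext (one_smul G x.1)
    · show (Sum.inr _ : LrW X v) = Sum.inr h
      rw [one_mul]
  mul_smul g g' p := by
    rcases p with x | h
    · show (Sum.inl _ : LrW X v) = Sum.inl _
      congr 1
      exact Subtype.ext (mul_smul g g' x.1)
    · show (Sum.inr _ : LrW X v) = Sum.inr _
      rw [mul_assoc]

/-- a vertex of the new fibre -/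
def lri {X : Ctx G} (v : X.V) (h : G) : LrW X v := Sum.inr h

/-- an old vertex -/
def lrl {X : Ctx G} {v : X.V} (x : X.V) (h : ∀ g : G, x ≠ g • v) : LrW X v := Sum.inl ⟨x, h⟩

/-- the projection -/
def lrbs {X : Ctx G} {v : X.V} (p : LrW X v) : X.V := match p with
  | .inl x => x.1
  | .inr h => h • v

theorem lr_smul_i {X : Ctx G} {v : X.V} (g h : G) : g • lri v h = lri (X := X) v (g * h) := rfl

theorem lri_inj {X : Ctx G} {v : X.V} {h h' : G} (e : lri (X := X) v h = lri v h') : h = h' :=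
  Sum.inr.inj e

theorem lrl_ne {X : Ctx G} {v : X.V} {x : X.V} {hx : ∀ g : G, x ≠ g • v} {h : G} :
    lrl x hx ≠ lri v h := fun e => nomatch e

theorem lr_cases {X : Ctx G} {v : X.V} (p : LrW X v) :
    (∃ x hx, p = lrl x hx) ∨ ∃ h, p = lri v h := by
  rcases p with x | h
  · exact Or.inl ⟨x.1, x.2, rfl⟩
  · exact Or.inr ⟨h, rfl⟩

theorem lrbs_i {X : Ctx G} {v : X.V} (h : G) : lrbs (lri (X := X) v h) = h • v := rfl
theorem lrbs_l {X : Ctx G} {v : X.V} {x : X.V} {hx : ∀ g : G, x ≠ g • v} :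
    lrbs (lrl x hx) = x := rfl

theorem lrbs_smul {X : Ctx G} {v : X.V} (g : G) (p : LrW X v) : lrbs (g • p) = g • lrbs p := by
  rcases p with x | h
  · rfl
  · exact mul_smul g h v

/-- neighbours in the new fibres -/
def lrss {X : Ctx G} {v : X.V} (z : G) (p q : LrW X v) : Prop :=
  ∃ g g', p = lri v g ∧ q = lri v g' ∧ (g' = g * z ∨ g = g' * z)

theorem lrss_i {X : Ctx G} {v : X.V} {z g g' : G} : lrss z (lri (X := X) v g) (lri v g') ↔
    (g' = g * z ∨ g = g' * z) := by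
  constructor
  · rintro ⟨g₁, g₂, e1, e2, h⟩
    rw [lri_inj e1, lri_inj e2]
    exact h
  · exact fun h => ⟨g, g', rfl, rfl, h⟩

open Classical in
/-- positions -/
noncomputable def lrpi (X : Ctx G) (v : X.V) (a : X.U) (z : G) (x y : X.V) (c : X.U) : LrW X v :=
  if h : ∀ g : G, x ≠ g • v then lrl x h
  else lri v (Classical.epsilon (fun h => lrP X v a z x y c h))

theorem lrpi_l {X : Ctx G} {v : X.V} {a : X.U} {z : G} {x : X.V} (hx : ∀ g : G, x ≠ g • v)
    (y : X.V) (c : X.U) : lrpi X v a z x y c = lrl x hx := by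
  unfold lrpi
  rw [dif_pos hx]

namespace LrC

variable {X : Ctx G} {v : X.V} {a : X.U} {z : G} {k : ℕ} (C : LrC X v a z k)

include C

theorem pi_i (hSL : ST_SL) {x y : X.V} {c : X.U} {h : G} (hP : lrP X v a z x y c h) :
    lrpi X v a z x y c = lri v h := by
  unfold lrpi
  have h0 : ¬ ∀ g : G, x ≠ g • v := fun h' => h' h hP.1.1
  rw [dif_neg h0]
  congr 1
  exact C.P_unique hSL (Classical.epsilon_spec (p := fun h => lrP X v a z x y c h) ⟨h, hP⟩) hP

theorem pi_cases (hSL : ST_SL) (hTFC : ST_TFC) {x y : X.V} {c : X.U}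
    (hy : X.K.adj x y) (hc : OnI (X.P.N x) (X.P.N y) c) :
    (∃ hx, lrpi X v a z x y c = lrl x hx) ∨
      ∃ h, lrP X v a z x y c h ∧ lrpi X v a z x y c = lri v h := by
  by_cases hx : ∀ g : G, x ≠ g • v
  · exact Or.inl ⟨hx, lrpi_l hx y c⟩
  · right
    push Not at hx
    obtain ⟨g, hg⟩ := hx
    obtain ⟨h, hh⟩ := C.P_ex hSL hTFC hg hy hc
    exact ⟨h, hh, C.pi_i hSL hh⟩

theorem P_of_pi (hSL : ST_SL) (hTFC : ST_TFC) {x y : X.V} {c : X.U} {h : G}
    (hy : X.K.adj x y) (hc : OnI (X.P.N x) (X.P.N y) c) (e : lrpi X v a z x y c = lri v h) :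
    lrP X v a z x y c h := by
  rcases C.pi_cases hSL hTFC hy hc with ⟨hx, h1⟩ | ⟨h', h1, h2⟩
  · rw [h1] at e
    exact absurd e lrl_ne
  · rw [h2] at e
    rw [← lri_inj e]
    exact h1

theorem bs_pi (hSL : ST_SL) (hTFC : ST_TFC) {x y : X.V} {c : X.U}
    (hy : X.K.adj x y) (hc : OnI (X.P.N x) (X.P.N y) c) : lrbs (lrpi X v a z x y c) = x := by
  rcases C.pi_cases hSL hTFC hy hc with ⟨hx, h1⟩ | ⟨h', h1, h2⟩
  · rw [h1, lrbs_l]
  · rw [h2, lrbs_i]
    exact h1.1.1.symm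

theorem pi_smul (hSL : ST_SL) (hTFC : ST_TFC) (g : G) {x y : X.V} {c : X.U}
    (hy : X.K.adj x y) (hc : OnI (X.P.N x) (X.P.N y) c) :
    lrpi X v a z (g • x) (g • y) (g • c) = g • lrpi X v a z x y c := by
  rcases C.pi_cases hSL hTFC hy hc with ⟨hx, h1⟩ | ⟨h', h1, h2⟩
  · rw [h1]
    have hx' : ∀ g' : G, g • x ≠ g' • v := fun g' e => hx (g⁻¹ * g') (by
      rw [mul_smul, ← e, inv_smul_smul])
    rw [lrpi_l hx']
    rfl
  · rw [h2, lr_smul_i]
    exact C.pi_i hSL ((C.P_smul hSL g h' x y c).2 h1)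

/-- the step lemma for `π` -/
theorem pi_step (hSL : ST_SL) (hTFC : ST_TFC) {x y : X.V} {u w : X.U} (hy : X.K.adj x y)
    (hc : OnI (X.P.N x) (X.P.N y) w) (hu : X.P.N x w = u) :
    lrpi X v a z x y u = lrpi X v a z x y w ∨
      ∃ h, lrpi X v a z x y w = lri v h ∧ lrpi X v a z x y u = lri v (h * z) ∧ w = h • a ∧
        lrP X v a z x y w h ∧ lrP X v a z x y u (h * z) := by
  rcases C.pi_cases hSL hTFC hy hc with ⟨hx, h1⟩ | ⟨h', h1, h2⟩
  · left
    rw [lrpi_l hx, lrpi_l hx]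
  · rcases C.P_step hSL hu h1 with h3 | ⟨h3, h4⟩
    · left
      rw [C.pi_i hSL h3, h2]
    · right
      exact ⟨h', h2, C.pi_i hSL h3, h4, h1, h3⟩

theorem pi_center (hSL : ST_SL) (hTFC : ST_TFC) {x y w : X.V} {c : X.U} (ht : X.K.tri x y w)
    (hc : IsCenter (X.P.N x) (X.P.N y) (X.P.N w) c) :
    lrpi X v a z x y c = lrpi X v a z x w c := by
  have hadj := X.K.tri_adj _ _ _ ht
  rcases C.pi_cases hSL hTFC hadj hc.1 with ⟨hx, h1⟩ | ⟨h', h1, h2⟩
  · rw [lrpi_l hx, lrpi_l hx]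
  · have ht' : X.K.tri x w y := X.K.tri_rot _ _ _ (X.K.tri_swap _ _ _ (X.K.tri_rot _ _ _
      (X.K.tri_rot _ _ _ ht))) |> fun h => by
        have := X.K.tri_perm ht
        exact this.2.2.2.1
    have hc' : IsCenter (X.P.N x) (X.P.N w) (X.P.N y) c := ⟨hc.2.2, lr_symm hc.2.1, hc.1⟩
    rw [h2]
    refine (C.pi_i hSL ⟨C.P_center hSL ht hc h1.1, fun h3 => h1.2 ?_⟩).symm
    exact C.P_center hSL ht' hc' h3

/-- the fibres are lines: connectedness -/
theorem ss_conn_aux {g g' : G} (h : g • v = g' • v) :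
    Relation.ReflTransGen (lrss (X := X) (v := v) z) (lri v g) (lri v g') := by
  obtain ⟨m, rfl⟩ := C.coset h
  have h1 : ∀ (n : ℕ) (g : G), Relation.ReflTransGen (lrss (X := X) (v := v) z) (lri v g)
      (lri v (g * z ^ n)) := by
    intro n
    induction n with
    | zero => intro g; rw [pow_zero, mul_one]
    | succ n ih =>
      intro g
      refine (ih g).tail (lrss_i.2 (Or.inl ?_))
      rw [pow_succ, mul_assoc]
  have hs : ∀ p q : LrW X v, lrss z p q → lrss z q p := by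
    rintro p q ⟨g, g', rfl, rfl, h | h⟩
    · exact lrss_i.2 (Or.inr h)
    · exact lrss_i.2 (Or.inl h)
  rcases le_total 0 m with hm | hm
  · obtain ⟨n, rfl⟩ := Int.eq_ofNat_of_zero_le hm
    rw [zpow_natCast]
    exact h1 n g
  · obtain ⟨n, hn⟩ := Int.eq_ofNat_of_zero_le (show 0 ≤ -m by omega)
    have h2 := h1 n (g * z ^ m)
    have e : g * z ^ m * z ^ n = g := by
      rw [mul_assoc, ← zpow_natCast, ← zpow_add, ← hn]
      simp
    rw [e] at h2
    exact Relation.ReflTransGen.mono (fun p q h => hs _ _ h) _ _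
      (Relation.ReflTransGen.swap _ _ h2)

/-- the fibres are lines: cocycles -/
theorem ss_sc_aux : SC (lrss (X := X) (v := v) z) (fun _ _ _ => False) := by
  classical
  intro H _ c hc _
  -- representatives of the cosets of `⟨z⟩`
  have hr : ∀ q : G ⧸ Subgroup.zpowers z, ∃ F : ℤ → H, ∀ m : ℤ,
      F (m + 1) = F m * c (lri v (q.out * z ^ m)) (lri v (q.out * z ^ (m + 1))) :=
    fun q => lr_pot _
  choose F hF using hr
  have hm : ∀ g : G, ∃ m : ℤ, g = (g : G ⧸ Subgroup.zpowers z).out * z ^ m := by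
    intro g
    obtain ⟨h, hh⟩ := QuotientGroup.mk_out_eq_mul (Subgroup.zpowers z) g
    obtain ⟨m, hm⟩ := Subgroup.mem_zpowers_iff.1 h.2
    refine ⟨-m, ?_⟩
    rw [hh, ← hm]
    group
  choose μ hμ using hm
  have hμz : ∀ g, μ (g * z) = μ g + 1 ∧
      ((g * z : G) : G ⧸ Subgroup.zpowers z) = (g : G ⧸ Subgroup.zpowers z) := by
    intro g
    have h1 : ((g * z : G) : G ⧸ Subgroup.zpowers z) = (g : G ⧸ Subgroup.zpowers z) := by
      rw [QuotientGroup.mk_mul_of_mem]
      exact Subgroup.mem_zpowers z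
    refine ⟨?_, h1⟩
    have h2 := hμ (g * z)
    rw [h1] at h2
    have h3 := hμ g
    have h4 : (g : G ⧸ Subgroup.zpowers z).out * z ^ μ (g * z) =
        (g : G ⧸ Subgroup.zpowers z).out * z ^ (μ g + 1) := by
      rw [← h2, zpow_add_one, ← mul_assoc, ← h3]
    exact C.zinj (mul_left_cancel h4)
  have key : ∀ g : G, c (lri v g) (lri v (g * z)) =
      (F (g : G ⧸ Subgroup.zpowers z) (μ g))⁻¹ *
        F ((g * z : G) : G ⧸ Subgroup.zpowers z) (μ (g * z)) := by
    intro g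
    obtain ⟨h1, h2⟩ := hμz g
    have h3 := hF (g : G ⧸ Subgroup.zpowers z) (μ g)
    have e1 : (g : G ⧸ Subgroup.zpowers z).out * z ^ μ g = g := (hμ g).symm
    have e2 : (g : G ⧸ Subgroup.zpowers z).out * z ^ (μ g + 1) = g * z := by
      rw [zpow_add_one, ← mul_assoc, e1]
    rw [e1, e2] at h3
    rw [h2, h1, h3]
    group
  refine ⟨fun p => match p with
    | .inl _ => 1
    | .inr g => F (g : G ⧸ Subgroup.zpowers z) (μ g), ?_⟩
  rintro p q ⟨g, g', rfl, rfl, h | h⟩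
  · subst h
    exact key g
  · have h1 := hc _ _ (lrss_i.2 (Or.inr h) : lrss z (lri (X := X) v g) (lri v g'))
    subst h
    have h2 := key g'
    show c (lri v (g' * z)) (lri v g') =
      (F ((g' * z : G) : G ⧸ Subgroup.zpowers z) (μ (g' * z)))⁻¹ *
        F (g' : G ⧸ Subgroup.zpowers z) (μ g')
    rw [mul_eq_one_iff_eq_inv.1 h1, h2]
    group

end LrC

end Pool.Agent.Helper93.HZ
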