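import Pool.Agent.Helper95.HZ.LRb

/-! # HZ: LR, part 3: the position data as a `PD` -/

set_option autoImplicit false

open MulAction Pointwise

namespace Pool.Agent.Helper93.HZ

open Ctx

variable {G : Type} [Group G]

theorem lr_stab_l {X : Ctx G} {v x : X.V} (hx : ∀ g : G, x ≠ g • v) :
    stabilizer G (lrl x hx) = stabilizer G x := by
  ext g
  rw [mem_stabilizer_iff, mem_stabilizer_iff]
  constructor
  · intro h
    have := congrArg lrbs h
    rwa [lrbs_smul, lrbs_l] at this
  · intro h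
    show (Sum.inl _ : LrW X v) = Sum.inl _
    congr 1
    exact Subtype.ext h

theorem lr_stab_i {X : Ctx G} {v : X.V} (h : G) : stabilizer G (lri (X := X) v h) = ⊥ := by
  rw [eq_bot_iff]
  intro g hg
  rw [mem_stabilizer_iff, lr_smul_i] at hg
  have := lri_inj hg
  rw [Subgroup.mem_bot]
  simpa using this

theorem lr_finW (X : Ctx G) (v : X.V) : FinOrb G (Set.univ : Set (LrW X v)) := by
  classical
  obtain ⟨F, -, -, hF, -⟩ := FinOrb.reps (Cx.finOrb_v X.K)
  have hfin : ((F : Set X.V) ∩ {x | ∀ g : G, x ≠ g • v}).Finite :=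
    F.finite_toSet.subset Set.inter_subset_left
  refine finOrb_of_reps ((fun x : X.V => if hx : ∀ g : G, x ≠ g • v then lrl x hx
    else lri v 1) '' (F : Set X.V) ∪ {lri v 1}) ?_ ?_
  · exact (F.finite_toSet.image _).union (Set.finite_singleton _)
  · intro p _
    rcases lr_cases p with ⟨x, hx, rfl⟩ | ⟨h, rfl⟩
    · obtain ⟨y, hy, g, hg⟩ := hF x trivial
      have hy' : ∀ g : G, y ≠ g • v := by
        intro g' e
        apply hx (g * g')
        rw [mul_smul, ← e, hg]
      refine ⟨lrl y hy', Or.inl ⟨y, hy, ?_⟩, g, ?_⟩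
      · show (if hx : ∀ g : G, y ≠ g • v then lrl y hx else lri v 1) = _
        rw [dif_pos hy']
      · show (Sum.inl _ : LrW X v) = Sum.inl _
        congr 1
        exact Subtype.ext hg
    · exact ⟨lri v 1, Or.inr rfl, h, by rw [lr_smul_i, mul_one]⟩

namespace LrC

variable {X : Ctx G} {v : X.V} {a : X.U} {z : G} {k : ℕ} (C : LrC X v a z k)

/-- the position data -/
noncomputable def F (hSL : ST_SL) (hTFC : ST_TFC) : PD X.D X.K X.P where
  cl x := {x}
  cl_self x := rfl
  cl_eq x y h := by rw [Set.mem_singleton_iff.1 h]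
  cl_smul g x := by rw [Set.smul_set_singleton]
  cl_conn x y h := by rw [Set.mem_singleton_iff.1 h]
  cl_ne x := by
    obtain ⟨y, hy⟩ := X.K.nbr x
    exact ⟨y, fun e => X.K.irrefl x (by rw [Set.mem_singleton_iff.1 e] at hy; exact hy)⟩
  W := LrW X v
  act := inferInstance
  ρ p := {lrbs p}
  ρ_smul g p := by rw [lrbs_smul, Set.smul_set_singleton]
  ρ_cl p := ⟨lrbs p, rfl⟩
  ρ_surj x := by
    by_cases hx : ∀ g : G, x ≠ g • v
    · exact ⟨lrl x hx, rfl⟩
    · push Not at hx
      obtain ⟨g, hg⟩ := hx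
      exact ⟨lri v g, by rw [lrbs_i, hg]⟩
  ss := lrss z
  ss_symm p q h := by
    obtain ⟨g, g', rfl, rfl, h⟩ := h
    exact lrss_i.2 h.symm
  ss_irrefl p h := by
    obtain ⟨g, g', rfl, e, h⟩ := h
    have e' := lri_inj e
    have hz : z = 1 := by
      rcases h with h | h
      · rw [← e'] at h
        simpa using h
      · rw [← e'] at h
        simpa using h
    exact C.z1 (by rw [hz]; exact IsOfFinOrder.one)
  ss_smul g p q h := by
    obtain ⟨g₁, g₂, rfl, rfl, h⟩ := h
    rw [lr_smul_i, lr_smul_i]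
    refine lrss_i.2 ?_
    rcases h with h | h
    · exact Or.inl (by rw [h, mul_assoc])
    · exact Or.inr (by rw [h, mul_assoc])
  ss_fib p q h := by
    obtain ⟨g₁, g₂, rfl, rfl, h⟩ := h
    rw [lrbs_i, lrbs_i]
    rcases h with h | h
    · rw [h, mul_smul, C.zv]
    · rw [h, mul_smul, C.zv]
  ss_conn p q h := by
    have h' : lrbs p = lrbs q := Set.singleton_injective h
    rcases lr_cases p with ⟨x, hx, rfl⟩ | ⟨g, rfl⟩
    · rcases lr_cases q with ⟨x', hx', rfl⟩ | ⟨g', rfl⟩
      · rw [lrbs_l, lrbs_l] at h'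
        subst h'
        exact Relation.ReflTransGen.refl
      · rw [lrbs_l, lrbs_i] at h'
        exact absurd h' (hx g')
    · rcases lr_cases q with ⟨x', hx', rfl⟩ | ⟨g', rfl⟩
      · rw [lrbs_l, lrbs_i] at h'
        exact absurd h'.symm (hx' g)
      · exact C.ss_conn_aux h'
  ss_sc := C.ss_sc_aux
  π := lrpi X v a z
  π_ρ x y c hy _ hc := by rw [C.bs_pi hSL hTFC hy hc]
  p1 g x y c hy _ hc := C.pi_smul hSL hTFC g hy hc
  p2 x y u w hy _ hc := by
    obtain ⟨hT, h1, h2⟩ := hc
    have hw : OnI (X.P.N x) (X.P.N y) w := by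
      intro e
      rw [h1] at e
      exact absurd e.symm (lr_flip' (X.P.fN y) hT h2)
    rcases C.pi_step hSL hTFC hy hw h1 with h3 | ⟨h, h3, h4, -⟩
    · exact Or.inl h3
    · right
      rw [h3, h4]
      exact lrss_i.2 (Or.inr rfl)
  p3 x y w c ht _ _ hc := C.pi_center hSL hTFC ht hc
  p4 x y w c ht e _ _ := by
    have := Set.singleton_injective e
    exact absurd this (X.K.tri_ne ht).1
  p5 x y c c' hy _ hf hc hc' := by
    have hx : ∀ g : G, x ≠ g • v := by
      rintro g rfl
      apply hf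
      have h1 : X.K.adj v (g⁻¹ • y) := by
        have := X.K.smul_adj g⁻¹ _ _ hy
        rwa [inv_smul_smul] at this
      have h2 := Fr_smul g (C.hl _ h1)
      rwa [smul_inv_smul] at h2
    rw [lrpi_l hx, lrpi_l hx]
  stab p := by
    rcases lr_cases p with ⟨x, hx, rfl⟩ | ⟨h, rfl⟩
    · rw [lr_stab_l]
      exact X.K.stab x
    · rw [lr_stab_i]
      exact Or.inl inferInstance
  finW := lr_finW X v
  finS := by
    refine finOrb_of_reps ({(lri v 1, lri v z), (lri v z, lri v 1)} : Set (LrW X v × LrW X v))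
      (by simp) ?_
    rintro ⟨p, q⟩ ⟨g, g', e1, e2, h⟩
    have e1' : p = lri v g := e1
    have e2' : q = lri v g' := e2
    subst e1' e2'
    rcases h with h | h
    · refine ⟨(lri v 1, lri v z), by simp, g, ?_⟩
      rw [Prod.smul_mk, lr_smul_i, lr_smul_i, mul_one, h]
    · refine ⟨(lri v z, lri v 1), by simp, g', ?_⟩
      rw [Prod.smul_mk, lr_smul_i, lr_smul_i, mul_one, h]

end LrC

end Pool.Agent.Helper93.HZ
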