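import Pool.Agent.Helper95.HZ.LRc

/-! # HZ: LR, part 4: hulls, walks, cells and triangles of the blow-up -/

set_option autoImplicit false

open MulAction Pointwise

namespace Pool.Agent.Helper93.HZ

open Ctx

variable {G : Type} [Group G]

section hull

variable {D : Setup G} {K : Cx G} {P : Pts D K}

theorem lr_hull_symm {x y : K.V} {c : D.U} (h : c ∈ PD.hull P x y) : c ∈ PD.hull P y x := by
  obtain ⟨h1, h2⟩ := h
  refine ⟨lr_symm h1, ?_⟩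
  rintro ⟨w, hw⟩
  obtain ⟨z₁, z₂, c₁, c₂, t1, t2, k1, k2, m1, m2⟩ := h2 ⟨w, K.tri_swap _ _ _ hw⟩
  refine ⟨z₂, z₁, c₂, c₁, K.tri_swap _ _ _ t2, K.tri_swap _ _ _ t1, ?_, ?_, m2, m1⟩
  · exact ⟨lr_symm k2.1, k2.2.2, k2.2.1⟩
  · exact ⟨lr_symm k1.1, k1.2.2, k1.2.1⟩

theorem lr_hull_iter {x y : K.V} {c : D.U} {n i : ℕ} (h : c ∈ PD.hull P x y)
    (h' : (P.N x)^[n] c ∈ PD.hull P x y) (hi : i ≤ n) : (P.N x)^[i] c ∈ PD.hull P x y := by
  have h0 := (lr_iter (P.fN y) (P.fN x) (lr_symm h.1) i).1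
  refine ⟨lr_symm h0, fun hw => ?_⟩
  obtain ⟨z₁, -, c₁, -, t1, -, k1, -, ⟨m1, hm1⟩, -⟩ := h.2 hw
  obtain ⟨-, z₂, -, c₂, -, t2, -, k2, -, ⟨m2, hm2⟩⟩ := h'.2 hw
  refine ⟨z₁, z₂, c₁, c₂, t1, t2, k1, k2, ⟨i + m1, ?_⟩, ?_⟩
  · rw [Function.iterate_add_apply, hm1]
  · obtain ⟨-, j, hj⟩ := lr_iter (P.fN y) (P.fN x) h0 (n - i)
    rw [← Function.iterate_add_apply, Nat.sub_add_cancel hi, ← hm2,
      ← Function.iterate_add_apply] at hj
    exact ⟨j + m2, hj⟩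

theorem lr_hull_center {x y w : K.V} {c : D.U} (ht : K.tri x y w)
    (hc : IsCenter (P.N x) (P.N y) (P.N w) c) : c ∈ PD.hull P x y :=
  ⟨hc.1, fun _ => ⟨w, w, c, c, ht, ht, hc, hc, ⟨0, rfl⟩, ⟨0, rfl⟩⟩⟩

theorem lr_hull_ne (X : Ctx G) (hTFC : ST_TFC) (hLEG : ST_LEG) {x y : X.V}
    (hy : X.K.adj x y) : ∃ c, c ∈ PD.hull X.P x y := by
  by_cases hw : ∃ w, X.K.tri x y w
  · obtain ⟨w, hw⟩ := hw
    obtain ⟨c, hc, -⟩ := (hLEG G X x y w hw).1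
    exact ⟨c, lr_hull_center hw hc⟩
  · obtain ⟨c, hc⟩ := (hTFC X.U X.D.T X.D.tree _ _ (X.P.fN x) (X.P.fN y)).2 (X.nd x y hy)
    exact ⟨c, hc, fun h => absurd h hw⟩

theorem lr_hull_total (hTFC : ST_TFC) {x y : K.V} {c c' : D.U} (h : c ∈ PD.hull P x y)
    (h' : c' ∈ PD.hull P x y) :
    (∃ n : ℕ, (P.N x)^[n] c = c') ∨ ∃ n : ℕ, (P.N x)^[n] c' = c :=
  lr_total D.tree hTFC (P.fN x) (P.fN y) h.1 h'.1

/-- from following `N x` to following `N y` -/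
theorem lr_hull_back {x y : K.V} {c c' : D.U} {n : ℕ} (h : c ∈ PD.hull P x y)
    (hn : (P.N x)^[n] c = c') : ∃ m : ℕ, (P.N y)^[m] c' = c := by
  obtain ⟨-, j, hj⟩ := lr_iter (P.fN y) (P.fN x) (lr_symm h.1) n
  exact ⟨j, by rw [← hn, hj]⟩

end hull

/-- cells -/
def lrcell (X : Ctx G) (v : X.V) (a : X.U) (z : G) (x y : X.V) (p q : LrW X v) : Prop :=
  X.K.adj x y ∧ ((∃ c ∈ PD.hull X.P x y, p = lrpi X v a z x y c ∧ q = lrpi X v a z y x c) ∨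
    ∃ u w, u ∈ PD.hull X.P x y ∧ w ∈ PD.hull X.P x y ∧ Cross X.P x y u w ∧
      p = lrpi X v a z x y w ∧ q = lrpi X v a z y x u)

/-- D-triangles -/
def lrdt (X : Ctx G) (v : X.V) (a : X.U) (z : G) (p p' q : LrW X v) : Prop :=
  ∃ x y u w, X.K.adj x y ∧ u ∈ PD.hull X.P x y ∧ w ∈ PD.hull X.P x y ∧ Cross X.P x y u w ∧
    lrpi X v a z x y u ≠ lrpi X v a z x y w ∧ q = lrpi X v a z y x u ∧
    ((p = lrpi X v a z x y u ∧ p' = lrpi X v a z x y w) ∨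
      (p = lrpi X v a z x y w ∧ p' = lrpi X v a z x y u))

/-- lifted triangles -/
def lrlt (X : Ctx G) (v : X.V) (a : X.U) (z : G) (p q r : LrW X v) : Prop :=
  ∃ x y w c, X.K.tri x y w ∧ IsCenter (X.P.N x) (X.P.N y) (X.P.N w) c ∧
    p = lrpi X v a z x y c ∧ q = lrpi X v a z y w c ∧ r = lrpi X v a z w x c

/-- the blow-up -/
structure LrR (X : Ctx G) (v : X.V) (a : X.U) (z : G) (R : Cx G) (e : R.V → LrW X v) : Prop where
  bij : Function.Bijective e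
  sm : ∀ (g : G) p, e (g • p) = g • e p
  adj : ∀ p q, R.adj p q ↔ lrss z (e p) (e q) ∨ ∃ x y, lrcell X v a z x y (e p) (e q)
  tri : ∀ p q r, R.tri p q r ↔ lrlt X v a z (e p) (e q) (e r) ∨ lrdt X v a z (e p) (e q) (e r) ∨
    lrdt X v a z (e q) (e r) (e p) ∨ lrdt X v a z (e r) (e p) (e q)

namespace LrC

variable {X : Ctx G} {v : X.V} {a : X.U} {z : G} {k : ℕ} (C : LrC X v a z k)

include C

theorem R_ex (hSL : ST_SL) (hTFC : ST_TFC) (hPL : ST_PL) :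
    ∃ (R : Cx G) (e : R.V → LrW X v), LrR X v a z R e := by
  obtain ⟨R, e, h1, h2, h3, h4, -⟩ := hPL G X.D X.K X.P X.red X.nmax.1 X.nd (C.F hSL hTFC)
  have hne : ∀ x y, X.K.adj x y → ({x} : Set X.V) ≠ {y} := by
    intro x y h e
    rw [Set.singleton_injective e] at h
    exact X.K.irrefl _ h
  have hcell : ∀ x y p q, (C.F hSL hTFC).cell x y p q ↔ lrcell X v a z x y p q := by
    intro x y p q
    constructor
    · rintro ⟨k1, -, k2⟩
      exact ⟨k1, k2⟩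
    · rintro ⟨k1, k2⟩
      exact ⟨k1, hne x y k1, k2⟩
  have hdt : ∀ p p' q, (C.F hSL hTFC).dt p p' q ↔ lrdt X v a z p p' q := by
    intro p p' q
    constructor
    · rintro ⟨x, y, u, w, ⟨k1, -, k2, k3, k4, k5⟩, k6, k7⟩
      exact ⟨x, y, u, w, k1, k2, k3, k4, k5, k6, k7⟩
    · rintro ⟨x, y, u, w, k1, k2, k3, k4, k5, k6, k7⟩
      exact ⟨x, y, u, w, ⟨k1, hne x y k1, k2, k3, k4, k5⟩, k6, k7⟩
  have hlt : ∀ p q r, (C.F hSL hTFC).lt p q r ↔ lrlt X v a z p q r := by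
    intro p q r
    constructor
    · rintro ⟨x, y, w, c, k1, -, -, -, k2, k3⟩
      exact ⟨x, y, w, c, k1, k2, k3⟩
    · rintro ⟨x, y, w, c, k1, k2, k3⟩
      obtain ⟨a1, a2, a3, a4, a5, a6⟩ := X.K.tri_adj' k1
      exact ⟨x, y, w, c, k1, hne _ _ a1, hne _ _ a2, hne _ _ a6, k2, k3⟩
  refine ⟨R, e, h1, h2, ?_, ?_⟩
  · intro p q
    rw [h3]
    constructor
    · rintro (k1 | ⟨x, y, k1⟩)
      · exact Or.inl k1
      · exact Or.inr ⟨x, y, (hcell _ _ _ _).1 k1⟩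
    · rintro (k1 | ⟨x, y, k1⟩)
      · exact Or.inl k1
      · exact Or.inr ⟨x, y, (hcell _ _ _ _).2 k1⟩
  · intro p q r
    rw [h4, hlt, hdt, hdt, hdt]

omit C in
theorem dt_swap {p p' q : LrW X v} (h : lrdt X v a z p p' q) : lrdt X v a z p' p q := by
  obtain ⟨x, y, u, w, h1, h2, h3, h4, h5, h6, h7⟩ := h
  exact ⟨x, y, u, w, h1, h2, h3, h4, h5, h6, h7.symm.imp (fun h => ⟨h.2, h.1⟩)
    (fun h => ⟨h.2, h.1⟩)⟩

/-- the shape of a D-triangle -/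
theorem dt_char (hSL : ST_SL) (hTFC : ST_TFC) {p p' q : LrW X v} (h : lrdt X v a z p p' q) :
    ∃ x y u w h, X.K.adj x y ∧ u ∈ PD.hull X.P x y ∧ w ∈ PD.hull X.P x y ∧ Cross X.P x y u w ∧
      q = lrpi X v a z y x u ∧ w = h • a ∧ lrP X v a z x y w h ∧ lrP X v a z x y u (h * z) ∧
      ((p = lri v (h * z) ∧ p' = lri v h) ∨ (p = lri v h ∧ p' = lri v (h * z))) := by
  obtain ⟨x, y, u, w, h1, h2, h3, h4, h5, h6, h7⟩ := h
  rcases C.pi_step hSL hTFC h1 h3.1 h4.2.1 with h8 | ⟨h, k1, k2, k3, k4, k5⟩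
  · exact absurd h8 h5
  · refine ⟨x, y, u, w, h, h1, h2, h3, h4, h6, k3, k4, k5, ?_⟩
    rw [k1, k2] at h7
    exact h7

theorem dt_bs (hSL : ST_SL) (hTFC : ST_TFC) {p p' q : LrW X v} (hd : lrdt X v a z p p' q) :
    lrbs p = lrbs p' ∧ X.K.adj (lrbs p) (lrbs q) ∧
      ∃ h h', p = lri v h ∧ p' = lri v h' ∧ (h' = h * z ∨ h' = h * z⁻¹) := by
  obtain ⟨x, y, u, w, h, h1, h2, h3, h4, h5, h6, h7, h8, h9⟩ := C.dt_char hSL hTFC hd
  have e1 : lrbs q = y := by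
    rw [h5]; exact C.bs_pi hSL hTFC (X.K.symm _ _ h1) (lr_symm h2.1)
  have e2 : h • v = x := h7.1.1.symm
  have e3 : (h * z) • v = x := h8.1.1.symm
  rw [e1]
  rcases h9 with ⟨rfl, rfl⟩ | ⟨rfl, rfl⟩
  · rw [lrbs_i, lrbs_i, e2, e3]
    refine ⟨rfl, h1, h * z, h, rfl, rfl, Or.inr (by group)⟩
  · rw [lrbs_i, lrbs_i, e2, e3]
    exact ⟨rfl, h1, h, h * z, rfl, rfl, Or.inl rfl⟩

theorem lt_bs (hSL : ST_SL) (hTFC : ST_TFC) {p q r : LrW X v} (h : lrlt X v a z p q r) :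
    X.K.tri (lrbs p) (lrbs q) (lrbs r) ∧ ∃ c,
      IsCenter (X.P.N (lrbs p)) (X.P.N (lrbs q)) (X.P.N (lrbs r)) c ∧
      p = lrpi X v a z (lrbs p) (lrbs q) c ∧ q = lrpi X v a z (lrbs q) (lrbs r) c ∧
      r = lrpi X v a z (lrbs r) (lrbs p) c := by
  obtain ⟨x, y, w, c, h1, h2, h3, h4, h5⟩ := h
  obtain ⟨a1, a2, a3, a4, a5, a6⟩ := X.K.tri_adj' h1
  have e1 : lrbs p = x := by rw [h3]; exact C.bs_pi hSL hTFC a1 h2.1
  have e2 : lrbs q = y := by rw [h4]; exact C.bs_pi hSL hTFC a2 h2.2.1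
  have e3 : lrbs r = w := by rw [h5]; exact C.bs_pi hSL hTFC a3 (lr_symm h2.2.2)
  rw [e1, e2, e3]
  exact ⟨h1, c, h2, h3, h4, h5⟩

/-- the walking lemma -/
theorem walk (hSL : ST_SL) (hTFC : ST_TFC) {x y : X.V} (hy : X.K.adj x y) (n : ℕ) :
    ∀ c, c ∈ PD.hull X.P x y → (X.P.N x)^[n] c ∈ PD.hull X.P x y →
    (lrpi X v a z x y ((X.P.N x)^[n] c) = lrpi X v a z x y c ∧
      lrpi X v a z y x ((X.P.N x)^[n] c) = lrpi X v a z y x c) ∨
    (∃ h, lrpi X v a z x y c = lri v h ∧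
      lrdt X v a z (lri v h) (lri v (h * z)) (lrpi X v a z y x c)) ∨
    (∃ h, lrpi X v a z y x c = lri v h ∧
      lrdt X v a z (lri v h) (lri v (h * z⁻¹)) (lrpi X v a z x y c)) := by
  induction n with
  | zero => exact fun c _ _ => Or.inl ⟨rfl, rfl⟩
  | succ n ih =>
    intro c hc hn
    have hy' := X.K.symm _ _ hy
    have hc1 : X.P.N x c ∈ PD.hull X.P x y := by
      have := lr_hull_iter hc hn (show 1 ≤ n + 1 by omega)
      exact this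
    rw [Function.iterate_succ_apply] at hn ⊢
    by_cases hfix : X.P.N x c = c
    · have ihc := ih c hc (by rw [hfix] at hn; exact hn)
      rw [hfix]
      exact ihc
    · have ihc := ih (X.P.N x c) hc1 hn
      have hadj := lr_adj (X.P.fN x) hfix
      have hback : X.P.N y (X.P.N x c) = c :=
        (lr_step (X.P.fN y) (X.P.fN x) (lr_symm hc.1) hfix).1
      rcases C.pi_step hSL hTFC hy' (lr_symm hc1.1) hback with h1 | ⟨h, h1, h2, -, -, -⟩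
      · rcases C.pi_step hSL hTFC hy hc.1 (rfl : X.P.N x c = X.P.N x c) with
          h3 | ⟨h, h3, h4, -, -, -⟩
        · rw [h3, ← h1] at ihc
          exact ihc
        · right; left
          refine ⟨h, h3, x, y, X.P.N x c, c, hy, hc1, hc, ⟨hadj.symm, rfl, hback⟩, ?_, h1,
            Or.inr ⟨h3.symm, h4.symm⟩⟩
          rw [h3, h4]
          intro e
          exact C.z1 (by
            have := lri_inj e
            rw [mul_eq_left] at this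
            rw [this]; exact IsOfFinOrder.one)
      · right; right
        refine ⟨h * z, h2, y, x, c, X.P.N x c, hy', lr_hull_symm hc, lr_hull_symm hc1,
          ⟨hadj, hback, rfl⟩, ?_, rfl, Or.inl ⟨h2.symm, ?_⟩⟩
        · rw [h1, h2]
          intro e
          exact C.z1 (by
            have := lri_inj e
            rw [mul_eq_left] at this
            rw [this]; exact IsOfFinOrder.one)
        · rw [h1, mul_inv_cancel_right]

end LrC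

end Pool.Agent.Helper93.HZ
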