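import Pool.Agent.Helper95.HZ.LRd

/-! # HZ: LR, part 5: (alpha) and (beta) -/

set_option autoImplicit false

open MulAction Pointwise

namespace Pool.Agent.Helper93.HZ

open Ctx

variable {G : Type} [Group G]

namespace LrC

variable {X : Ctx G} {v : X.V} {a : X.U} {z : G} {k : ℕ} (C : LrC X v a z k)
variable {R : Cx G} {e : R.V → LrW X v} (hR : LrR X v a z R e)

include C

theorem z_ne_one : z ≠ 1 := fun h => C.z1 (by rw [h]; exact IsOfFinOrder.one)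

theorem z_ne_inv : z ≠ z⁻¹ := by
  intro h
  have h1 : z ^ (1 : ℤ) = z ^ (-1 : ℤ) := by rw [zpow_one, zpow_neg_one]; exact h
  have := C.zinj h1
  omega

/-- a cell lies over an edge -/
theorem cell_bs (hSL : ST_SL) (hTFC : ST_TFC) {x y : X.V} {p q : LrW X v}
    (h : lrcell X v a z x y p q) : lrbs p = x ∧ lrbs q = y := by
  obtain ⟨h1, ⟨c, hc, rfl, rfl⟩ | ⟨u, w, hu, hw, -, rfl, rfl⟩⟩ := h
  · exact ⟨C.bs_pi hSL hTFC h1 hc.1, C.bs_pi hSL hTFC (X.K.symm _ _ h1) (lr_symm hc.1)⟩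
  · exact ⟨C.bs_pi hSL hTFC h1 hw.1, C.bs_pi hSL hTFC (X.K.symm _ _ h1) (lr_symm hu.1)⟩

/-- if the cell at `c` is in no D-triangle then all cells agree -/
theorem cells_const (hSL : ST_SL) (hTFC : ST_TFC) {x y : X.V} (hy : X.K.adj x y) {c : X.U}
    (hc : c ∈ PD.hull X.P x y)
    (h1 : ∀ s, ¬ lrdt X v a z (lrpi X v a z x y c) s (lrpi X v a z y x c))
    (h2 : ∀ s, ¬ lrdt X v a z (lrpi X v a z y x c) s (lrpi X v a z x y c)) :
    ∀ c' ∈ PD.hull X.P x y, lrpi X v a z x y c' = lrpi X v a z x y c ∧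
      lrpi X v a z y x c' = lrpi X v a z y x c := by
  intro c' hc'
  rcases lr_hull_total hTFC hc hc' with ⟨n, hn⟩ | ⟨n, hn⟩
  · rcases C.walk hSL hTFC hy n c hc (by rw [hn]; exact hc') with h3 | ⟨h, h3, h4⟩ | ⟨h, h3, h4⟩
    · rw [hn] at h3
      exact h3
    · rw [← h3] at h4
      exact absurd h4 (h1 _)
    · rw [← h3] at h4
      exact absurd h4 (h2 _)
  · obtain ⟨m, hm⟩ := lr_hull_back hc' hn
    rcases C.walk hSL hTFC (X.K.symm _ _ hy) m c (lr_hull_symm hc)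
      (by rw [hm]; exact lr_hull_symm hc') with h3 | ⟨h, h3, h4⟩ | ⟨h, h3, h4⟩
    · rw [hm] at h3
      exact ⟨h3.2, h3.1⟩
    · rw [← h3] at h4
      exact absurd h4 (h2 _)
    · rw [← h3] at h4
      exact absurd h4 (h1 _)

include hR

omit C in
theorem tri_of_dt {p p' q : R.V} (h : lrdt X v a z (e p) (e p') (e q)) :
    R.tri p p' q := (hR.tri p p' q).2 (Or.inr (Or.inl h))

omit C in
theorem tri_of_lt {p q r : R.V} (h : lrlt X v a z (e p) (e q) (e r)) :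
    R.tri p q r := (hR.tri p q r).2 (Or.inl h)

/-- triangles with two vertices in the same fibre -/
theorem tri_D (hSL : ST_SL) (hTFC : ST_TFC) {p q r : R.V} (h : R.tri p q r)
    (hb : lrbs (e p) = lrbs (e q)) : lrdt X v a z (e p) (e q) (e r) := by
  have hne : ∀ {x y : X.V}, X.K.adj x y → x = y → False := fun h e => X.K.irrefl _ (e ▸ h)
  rcases (hR.tri p q r).1 h with h1 | h1 | h1 | h1
  · exact (hne (X.K.tri_adj _ _ _ (C.lt_bs hSL hTFC h1).1) hb).elim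
  · exact h1
  · obtain ⟨k1, k2, -⟩ := C.dt_bs hSL hTFC h1
    exact (hne k2 hb.symm).elim
  · obtain ⟨k1, k2, -⟩ := C.dt_bs hSL hTFC h1
    rw [k1] at k2
    exact (hne k2 hb).elim

theorem adj_bs (hSL : ST_SL) (hTFC : ST_TFC) {p q : R.V} (h : R.adj p q) :
    (lrbs (e p) = lrbs (e q) ∧ lrss z (e p) (e q)) ∨
      lrcell X v a z (lrbs (e p)) (lrbs (e q)) (e p) (e q) := by
  rcases (hR.adj p q).1 h with h1 | ⟨x, y, h1⟩
  · left
    refine ⟨?_, h1⟩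
    obtain ⟨g, g', e1, e2, h2⟩ := h1
    rw [e1, e2, lrbs_i, lrbs_i]
    rcases h2 with h2 | h2
    · rw [h2, mul_smul, C.zv]
    · rw [h2, mul_smul, C.zv]
  · right
    obtain ⟨h2, h3⟩ := C.cell_bs hSL hTFC h1
    rw [h2, h3]
    exact h1

theorem alpha (hSL : ST_SL) (hTFC : ST_TFC) (p q : R.V) (h : R.adj p q)
    (hne : lrbs (e p) ≠ lrbs (e q))
    (hno : ∀ r, R.tri p q r → lrbs (e r) ≠ lrbs (e p) ∧ lrbs (e r) ≠ lrbs (e q))
    (p' q' : R.V) (h' : R.adj p' q') (hp : lrbs (e p') = lrbs (e p))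
    (hq : lrbs (e q') = lrbs (e q)) : p' = p ∧ q' = q := by
  have hc := (C.adj_bs hR hSL hTFC h).resolve_left (fun h => hne h.1)
  have hc' := (C.adj_bs hR hSL hTFC h').resolve_left (fun h => hne (by
    rw [← hp, ← hq]; exact h.1))
  rw [hp, hq] at hc'
  have h1 : ∀ s, ¬ lrdt X v a z (e p) s (e q) := by
    intro s hs
    obtain ⟨r, rfl⟩ := hR.bij.2 s
    have h2 := (R.tri_perm (tri_of_dt hR hs)).2.2.2.1
    exact (hno r h2).1 (C.dt_bs hSL hTFC hs).1.symm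
  have h2 : ∀ s, ¬ lrdt X v a z (e q) s (e p) := by
    intro s hs
    obtain ⟨r, rfl⟩ := hR.bij.2 s
    have h2 := (R.tri_perm (tri_of_dt hR hs)).2.1
    exact (hno r h2).2 (C.dt_bs hSL hTFC hs).1.symm
  have hadj := hc.1
  obtain ⟨c, hch, hpc, hqc⟩ : ∃ c ∈ PD.hull X.P (lrbs (e p)) (lrbs (e q)),
      e p = lrpi X v a z (lrbs (e p)) (lrbs (e q)) c ∧
      e q = lrpi X v a z (lrbs (e q)) (lrbs (e p)) c := by
    rcases hc.2 with h3 | ⟨u, w, hu, hw, hcr, e1, e2⟩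
    · exact h3
    · refine ⟨u, hu, ?_, e2⟩
      by_contra hcon
      refine h1 _ ⟨_, _, u, w, hadj, hu, hw, hcr, ?_, e2, Or.inr ⟨e1, rfl⟩⟩
      intro h4
      apply hcon
      rw [h4, ← e1]
  have hall := C.cells_const hSL hTFC hadj hch (by rw [← hpc, ← hqc]; exact h1)
    (by rw [← hpc, ← hqc]; exact h2)
  rw [← hpc, ← hqc] at hall
  rcases hc'.2 with ⟨c', hc1, e1, e2⟩ | ⟨u, w, hu, hw, -, e1, e2⟩
  · obtain ⟨k1, k2⟩ := hall c' hc1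
    exact ⟨hR.bij.1 (e1.trans k1), hR.bij.1 (e2.trans k2)⟩
  · exact ⟨hR.bij.1 (e1.trans (hall w hw).1), hR.bij.1 (e2.trans (hall u hu).2)⟩

/-- three triangles with centers in order -/
theorem three (hSL : ST_SL) (hTFC : ST_TFC) {y : X.V} (hy : X.K.adj v y)
    (hβ : ∀ p q, R.adj p q → lrbs (e p) = v → lrbs (e q) = y →
      {r | R.tri p q r}.Finite ∧ {r | R.tri p q r}.ncard ≤ 2)
    {w₁ w₂ w₃ : X.V} {c₁ c₂ c₃ : X.U} (t₁ : X.K.tri v y w₁) (t₂ : X.K.tri v y w₂)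
    (t₃ : X.K.tri v y w₃) (n12 : w₁ ≠ w₂) (n13 : w₁ ≠ w₃) (n23 : w₂ ≠ w₃)
    (d₁ : IsCenter (X.P.N v) (X.P.N y) (X.P.N w₁) c₁)
    (d₂ : IsCenter (X.P.N v) (X.P.N y) (X.P.N w₂) c₂)
    (d₃ : IsCenter (X.P.N v) (X.P.N y) (X.P.N w₃) c₃)
    (h12 : ∃ n : ℕ, (X.P.N v)^[n] c₁ = c₂) (h23 : ∃ n : ℕ, (X.P.N v)^[n] c₂ = c₃) : False := by
  have hy' := X.K.symm _ _ hy
  have u₁ := lr_hull_center t₁ d₁
  have u₂ := lr_hull_center t₂ d₂
  have u₃ := lr_hull_center t₃ d₃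
  obtain ⟨p, hp⟩ := hR.bij.2 (lrpi X v a z v y c₂)
  obtain ⟨q, hq⟩ := hR.bij.2 (lrpi X v a z y v c₂)
  have bp : lrbs (e p) = v := by rw [hp]; exact C.bs_pi hSL hTFC hy d₂.1
  have bq : lrbs (e q) = y := by rw [hq]; exact C.bs_pi hSL hTFC hy' (lr_symm d₂.1)
  have hadj : R.adj p q := (hR.adj p q).2 (Or.inr ⟨v, y, hy, Or.inl ⟨c₂, u₂, hp, hq⟩⟩)
  obtain ⟨hfin, hcard⟩ := hβ p q hadj bp bq
  -- the lifted triangle at a center with the same cell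
  have hlift : ∀ w c, X.K.tri v y w → IsCenter (X.P.N v) (X.P.N y) (X.P.N w) c →
      lrpi X v a z v y c = e p → lrpi X v a z y v c = e q →
      ∃ r, R.tri p q r ∧ lrbs (e r) = w := by
    intro w c t d k1 k2
    obtain ⟨a1, a2, a3, a4, a5, a6⟩ := X.K.tri_adj' t
    obtain ⟨r, hr⟩ := hR.bij.2 (lrpi X v a z w v c)
    refine ⟨r, tri_of_lt hR ⟨v, y, w, c, t, d, k1.symm, ?_, hr⟩, ?_⟩
    · rw [← k2]
      exact C.pi_center hSL hTFC (X.K.tri_swap _ _ _ t) ⟨lr_symm d.1, d.2.2, d.2.1⟩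
    · rw [hr]
      exact C.bs_pi hSL hTFC a3 (lr_symm d.2.2)
  obtain ⟨r₂, s₂, b₂⟩ := hlift w₂ c₂ t₂ d₂ hp.symm hq.symm
  have hnw : ∀ w, X.K.tri v y w → w ≠ v ∧ w ≠ y := by
    intro w t
    obtain ⟨n1, n2, n3⟩ := X.K.tri_ne t
    exact ⟨n3.symm, n2.symm⟩
  -- behind
  have hr1 : ∃ r, R.tri p q r ∧ (lrbs (e r) = w₁ ∨
      (∃ h, e q = lri v h ∧ e r = lri v (h * z)) ∨
      (∃ h, e p = lri v h ∧ e r = lri v (h * z⁻¹))) := by
    obtain ⟨n, hn⟩ := h12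
    obtain ⟨m, hm⟩ := lr_hull_back u₁ hn
    rcases C.walk hSL hTFC hy' m c₂ (lr_hull_symm u₂) (by rw [hm]; exact lr_hull_symm u₁) with
      h3 | ⟨h, h3, h4⟩ | ⟨h, h3, h4⟩
    · rw [hm, ← hp, ← hq] at h3
      obtain ⟨r, k1, k2⟩ := hlift w₁ c₁ t₁ d₁ h3.2 h3.1
      exact ⟨r, k1, Or.inl k2⟩
    · obtain ⟨r, hr⟩ := hR.bij.2 (lri v (h * z))
      rw [← h3, ← hp, ← hq, ← hr] at h4
      rw [← hq] at h3
      exact ⟨r, (R.tri_perm (tri_of_dt hR h4)).2.1, Or.inr (Or.inl ⟨h, h3, hr⟩)⟩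
    · obtain ⟨r, hr⟩ := hR.bij.2 (lri v (h * z⁻¹))
      rw [← h3, ← hp, ← hq, ← hr] at h4
      rw [← hp] at h3
      exact ⟨r, (R.tri_perm (tri_of_dt hR h4)).2.2.2.1, Or.inr (Or.inr ⟨h, h3, hr⟩)⟩
  -- ahead
  have hr3 : ∃ r, R.tri p q r ∧ (lrbs (e r) = w₃ ∨
      (∃ h, e p = lri v h ∧ e r = lri v (h * z)) ∨
      (∃ h, e q = lri v h ∧ e r = lri v (h * z⁻¹))) := by
    obtain ⟨n, hn⟩ := h23
    rcases C.walk hSL hTFC hy n c₂ u₂ (by rw [hn]; exact u₃) with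
      h3 | ⟨h, h3, h4⟩ | ⟨h, h3, h4⟩
    · rw [hn, ← hp, ← hq] at h3
      obtain ⟨r, k1, k2⟩ := hlift w₃ c₃ t₃ d₃ h3.1 h3.2
      exact ⟨r, k1, Or.inl k2⟩
    · obtain ⟨r, hr⟩ := hR.bij.2 (lri v (h * z))
      rw [← h3, ← hp, ← hq, ← hr] at h4
      rw [← hp] at h3
      exact ⟨r, (R.tri_perm (tri_of_dt hR h4)).2.2.2.1, Or.inr (Or.inl ⟨h, h3, hr⟩)⟩
    · obtain ⟨r, hr⟩ := hR.bij.2 (lri v (h * z⁻¹))
      rw [← h3, ← hp, ← hq, ← hr] at h4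
      rw [← hq] at h3
      exact ⟨r, (R.tri_perm (tri_of_dt hR h4)).2.1, Or.inr (Or.inr ⟨h, h3, hr⟩)⟩
  obtain ⟨r₁, s₁, k₁⟩ := hr1
  obtain ⟨r₃, s₃, k₃⟩ := hr3
  have hvy : v ≠ y := (X.K.tri_ne t₁).1
  -- bases
  have hb : ∀ (p₀ r : R.V) (y₀ : X.V) (j : ℤ) (h : G), lrbs (e p₀) = y₀ → e p₀ = lri v h →
      e r = lri v (h * z ^ j) → lrbs (e r) = y₀ := by
    intro p₀ r y₀ j h k1 k2 k3
    rw [k3, lrbs_i, mul_smul, C.zpv, ← k1, k2, lrbs_i]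
  have hbz : ∀ (p₀ r : R.V) (y₀ : X.V) (h : G), lrbs (e p₀) = y₀ → e p₀ = lri v h →
      e r = lri v (h * z) → lrbs (e r) = y₀ := by
    intro p₀ r y₀ h k1 k2 k3
    exact hb p₀ r y₀ 1 h k1 k2 (by rw [zpow_one]; exact k3)
  have hbi : ∀ (p₀ r : R.V) (y₀ : X.V) (h : G), lrbs (e p₀) = y₀ → e p₀ = lri v h →
      e r = lri v (h * z⁻¹) → lrbs (e r) = y₀ := by
    intro p₀ r y₀ h k1 k2 k3
    exact hb p₀ r y₀ (-1) h k1 k2 (by rw [zpow_neg_one]; exact k3)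
  have n1 : r₁ ≠ r₂ := by
    rintro rfl
    rcases k₁ with k | ⟨h, k, k'⟩ | ⟨h, k, k'⟩
    · exact n12 (k.symm.trans b₂)
    · exact (hnw w₂ t₂).2 (b₂.symm.trans (hbz q _ y h bq k k'))
    · exact (hnw w₂ t₂).1 (b₂.symm.trans (hbi p _ v h bp k k'))
  have n3 : r₂ ≠ r₃ := by
    rintro rfl
    rcases k₃ with k | ⟨h, k, k'⟩ | ⟨h, k, k'⟩
    · exact n23 (b₂.symm.trans k)
    · exact (hnw w₂ t₂).1 (b₂.symm.trans (hbz p _ v h bp k k'))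
    · exact (hnw w₂ t₂).2 (b₂.symm.trans (hbi q _ y h bq k k'))
  have n2 : r₁ ≠ r₃ := by
    rintro rfl
    rcases k₁ with k | ⟨h, k, k'⟩ | ⟨h, k, k'⟩
    · rcases k₃ with l | ⟨h₁, l, l'⟩ | ⟨h₁, l, l'⟩
      · exact n13 (k.symm.trans l)
      · exact (hnw w₁ t₁).1 (k.symm.trans (hbz p _ v h₁ bp l l'))
      · exact (hnw w₁ t₁).2 (k.symm.trans (hbi q _ y h₁ bq l l'))
    · rcases k₃ with l | ⟨h₁, l, l'⟩ | ⟨h₁, l, l'⟩
      · exact (hnw w₃ t₃).2 (l.symm.trans (hbz q _ y h bq k k'))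
      · exact hvy ((hbz p _ v h₁ bp l l').symm.trans (hbz q _ y h bq k k'))
      · have e1 := lri_inj (k.symm.trans l)
        have e2 := lri_inj (k'.symm.trans l')
        rw [e1] at e2
        exact C.z_ne_inv (mul_left_cancel e2)
    · rcases k₃ with l | ⟨h₁, l, l'⟩ | ⟨h₁, l, l'⟩
      · exact (hnw w₃ t₃).1 (l.symm.trans (hbi p _ v h bp k k'))
      · have e1 := lri_inj (k.symm.trans l)
        have e2 := lri_inj (k'.symm.trans l')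
        rw [e1] at e2
        exact C.z_ne_inv (mul_left_cancel e2).symm
      · exact hvy ((hbi p _ v h bp k k').symm.trans (hbi q _ y h₁ bq l l'))
  have h3 : 2 < {r | R.tri p q r}.ncard :=
    (Set.two_lt_ncard hfin).2 ⟨r₁, s₁, r₂, s₂, r₃, s₃, n1, n2, n3⟩
  omega

theorem beta (hSL : ST_SL) (hTFC : ST_TFC) (hLEG : ST_LEG) (hFT : ST_FT) (y : X.V)
    (hy : X.K.adj v y)
    (hβ : ∀ p q, R.adj p q → lrbs (e p) = v → lrbs (e q) = y →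
      {r | R.tri p q r}.Finite ∧ {r | R.tri p q r}.ncard ≤ 2) :
    {w | X.K.tri v y w}.Finite ∧ {w | X.K.tri v y w}.ncard ≤ 2 := by
  have hfin : {w | X.K.tri v y w}.Finite := by
    refine hFT G X.K v y hy ?_
    have : stabilizer G v ⊓ stabilizer G y = ⊥ := by
      rw [eq_bot_iff]
      rintro g ⟨h1, h2⟩
      exact C.hl y hy g h1 h2
    rw [this]
    infer_instance
  refine ⟨hfin, ?_⟩
  by_contra hcon
  rw [not_le, Set.two_lt_ncard hfin] at hcon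
  obtain ⟨w₁, t₁, w₂, t₂, w₃, t₃, n12, n13, n23⟩ := hcon
  obtain ⟨c₁, d₁, -⟩ := (hLEG G X v y w₁ t₁).1
  obtain ⟨c₂, d₂, -⟩ := (hLEG G X v y w₂ t₂).1
  obtain ⟨c₃, d₃, -⟩ := (hLEG G X v y w₃ t₃).1
  have o12 := lr_total X.D.tree hTFC (X.P.fN v) (X.P.fN y) d₁.1 d₂.1
  have o13 := lr_total X.D.tree hTFC (X.P.fN v) (X.P.fN y) d₁.1 d₃.1
  have o23 := lr_total X.D.tree hTFC (X.P.fN v) (X.P.fN y) d₂.1 d₃.1
  rcases o12 with o12 | o12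
  · rcases o23 with o23 | o23
    · exact C.three hR hSL hTFC hy hβ t₁ t₂ t₃ n12 n13 n23 d₁ d₂ d₃ o12 o23
    · rcases o13 with o13 | o13
      · exact C.three hR hSL hTFC hy hβ t₁ t₃ t₂ n13 n12 n23.symm d₁ d₃ d₂ o13 o23
      · exact C.three hR hSL hTFC hy hβ t₃ t₁ t₂ n13.symm n23.symm n12 d₃ d₁ d₂ o13 o12
  · rcases o23 with o23 | o23
    · rcases o13 with o13 | o13
      · exact C.three hR hSL hTFC hy hβ t₂ t₁ t₃ n12.symm n23 n13 d₂ d₁ d₃ o12 o13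
      · exact C.three hR hSL hTFC hy hβ t₂ t₃ t₁ n23 n12.symm n13.symm d₂ d₃ d₁ o23 o13
    · exact C.three hR hSL hTFC hy hβ t₃ t₂ t₁ n23.symm n13.symm n12.symm d₃ d₂ d₁ o23 o12

end LrC

end Pool.Agent.Helper93.HZ
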