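import Pool.Agent.Helper95.HZ.LRe

/-! # HZ: LR, part 6: (gamma) -/

set_option autoImplicit false

open MulAction Pointwise

namespace Pool.Agent.Helper93.HZ

open Ctx

variable {G : Type} [Group G]

namespace LrC

variable {X : Ctx G} {v : X.V} {a : X.U} {z : G} {k : ℕ} (C : LrC X v a z k)
variable {R : Cx G} {e : R.V → LrW X v} (hR : LrR X v a z R e)

include C

/-- at most one D-triangle ahead of a cell -/
theorem ahead (hSL : ST_SL) (hTFC : ST_TFC) {h h₂ : G}
    (d₁ : lrdt X v a z (lri v h) (lri v (h * z)) (lri v h₂))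
    (d₂ : lrdt X v a z (lri v h₂) (lri v (h₂ * z⁻¹)) (lri v h)) : False := by
  obtain ⟨x, y, u, w, g, a1, a2, a3, a4, a5, a6, a7, a8, a9⟩ := C.dt_char hSL hTFC d₁
  obtain ⟨x', y', u', w', g', b1, b2, b3, b4, b5, b6, b7, b8, b9⟩ := C.dt_char hSL hTFC d₂
  have hg : g = h := by
    rcases a9 with ⟨e1, e2⟩ | ⟨e1, e2⟩
    · exfalso
      have e1' := lri_inj e1
      have e2' := lri_inj e2
      rw [e1', mul_assoc] at e2'
      have e3 : z * z = 1 := by simpa using e2'
      exact C.z_ne_inv (eq_inv_of_mul_eq_one_left e3)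
    · exact (lri_inj e1).symm
  have hg' : g' = h₂ * z⁻¹ := by
    rcases b9 with ⟨e1, e2⟩ | ⟨e1, e2⟩
    · exact (lri_inj e2).symm
    · exfalso
      have e1' := lri_inj e1
      have e2' := lri_inj e2
      rw [← e1'] at e2'
      exact C.z_ne_inv (mul_left_cancel e2').symm
  subst hg hg'
  rw [inv_mul_cancel_right] at b8
  have hx : x = g • v := a7.1.1
  have hx' : x' = h₂ • v := b8.1.1
  have hy : y = h₂ • v := by
    have := congrArg lrbs a5
    rw [lrbs_i, C.bs_pi hSL hTFC (X.K.symm _ _ a1) (lr_symm a2.1)] at this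
    exact this.symm
  have hy' : y' = g • v := by
    have := congrArg lrbs b5
    rw [lrbs_i, C.bs_pi hSL hTFC (X.K.symm _ _ b1) (lr_symm b2.1)] at this
    exact this.symm
  have hxy : x' = y := hx'.trans hy.symm
  have hyx : y' = x := hy'.trans hx.symm
  subst hxy hyx
  have p1 : lrP X v a z x' y' u h₂ := C.P_of_pi hSL hTFC b1 (lr_symm a2.1) a5.symm
  have p2 : lrP X v a z y' x' u' g := C.P_of_pi hSL hTFC a1 (lr_symm b2.1) b5.symm
  have hu' := lr_hull_symm b2
  rcases lr_hull_total hTFC hu' a2 with ⟨n, hn⟩ | ⟨n, hn⟩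
  · rcases n with _ | n
    · rw [Function.iterate_zero, id] at hn
      rw [hn] at p2
      have := C.P_unique hSL p2 a8
      exact C.z_ne_one (by simpa using this)
    · rw [Function.iterate_succ_apply, b4.2.2] at hn
      obtain ⟨m, hm⟩ := lr_hull_back (lr_hull_symm b3) hn
      rw [← hm] at b7
      obtain ⟨j, hj⟩ := C.P_mono hSL m p1 b7
      have h1 : z ^ (-1 : ℤ) = z ^ (j : ℤ) := by
        rw [zpow_neg_one, zpow_natCast]
        exact mul_left_cancel hj
      have := C.zinj h1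
      omega
  · rw [← hn] at p2
    obtain ⟨j, hj⟩ := C.P_mono hSL n a8 p2
    have h1 : z ^ (0 : ℤ) = z ^ ((j : ℤ) + 1) := by
      rw [zpow_zero, zpow_add_one, zpow_natCast]
      have h2 : g * (z * z ^ j) = g * 1 := by rw [mul_one, ← mul_assoc]; exact hj.symm
      rw [← mul_left_cancel h2, ← pow_succ, ← pow_succ']
    have := C.zinj h1
    omega

include hR

theorem gamma (hSL : ST_SL) (hTFC : ST_TFC) (q : R.V) (s : G) (hq : lrbs (e q) = v)
    (hs : s * s = 1) (_ : R.adj q (s • q)) (r r' : R.V) (ht : R.tri q (s • q) r)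
    (ht' : R.tri q (s • q) r') (hr : lrbs (e r) = v ∨ lrbs (e r) = s • v)
    (hr' : lrbs (e r') = v ∨ lrbs (e r') = s • v) : r' = r ∨ r' = s • r := by
  have hss : ∀ t : R.V, s • s • t = t := by
    intro t
    rw [← mul_smul, hs, one_smul]
  obtain ⟨h, hh⟩ : ∃ h, e q = lri v h := by
    rcases lr_cases (e q) with ⟨x, hx, h1⟩ | h1
    · rw [h1, lrbs_l] at hq
      exact absurd (hq.trans (one_smul G v).symm) (hx 1)
    · exact h1
  have hsq : e (s • q) = lri v (s * h) := by rw [hR.sm, hh, lr_smul_i]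
  have bsq : lrbs (e (s • q)) = s • v := by rw [hR.sm, lrbs_smul, hq]
  have key : ∀ t : R.V, R.tri q (s • q) t → (lrbs (e t) = v ∨ lrbs (e t) = s • v) →
      ∃ δ : G, (δ = z ∨ δ = z⁻¹) ∧ (e t = lri v (h * δ) ∨ e t = lri v (s * h * δ)) ∧
        lrdt X v a z (lri v h) (lri v (h * δ)) (lri v (s * h)) ∧
        lrdt X v a z (lri v (s * h)) (lri v (s * h * δ)) (lri v h) := by
    intro t t1 t2
    rcases t2 with t2 | t2
    · have t3 : R.tri q t (s • q) := (R.tri_perm t1).2.2.2.1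
      have d1 := C.tri_D hR hSL hTFC t3 (by rw [hq, t2])
      have t4 : R.tri (s • q) (s • t) q := by
        have := R.smul_tri s _ _ _ t3
        rwa [hss] at this
      have d2 := C.tri_D hR hSL hTFC t4 (by rw [bsq, hR.sm, lrbs_smul, t2])
      obtain ⟨-, -, g, g', e1, e2, e3⟩ := C.dt_bs hSL hTFC d1
      have e4 : g = h := lri_inj (e1.symm.trans hh)
      subst e4
      obtain ⟨δ, hδ, hδ'⟩ : ∃ δ : G, (δ = z ∨ δ = z⁻¹) ∧ g' = g * δ := by
        rcases e3 with e3 | e3
        · exact ⟨z, Or.inl rfl, e3⟩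
        · exact ⟨z⁻¹, Or.inr rfl, e3⟩
      subst hδ'
      have e5 : e (s • t) = lri v (s * g * δ) := by
        rw [hR.sm, e2, lr_smul_i, mul_assoc]
      rw [hsq, hh, e2] at d1
      rw [hsq, hh, e5] at d2
      exact ⟨δ, hδ, Or.inl e2, d1, d2⟩
    · have t3 : R.tri (s • q) t q := (R.tri_perm t1).1
      have d1 := C.tri_D hR hSL hTFC t3 (by rw [bsq, t2])
      have t4 : R.tri q (s • t) (s • q) := by
        have := R.smul_tri s _ _ _ t3
        rwa [hss] at this
      have d2 := C.tri_D hR hSL hTFC t4 (by rw [hq, hR.sm, lrbs_smul, t2, ← mul_smul, hs, one_smul])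
      obtain ⟨-, -, g, g', e1, e2, e3⟩ := C.dt_bs hSL hTFC d1
      have e4 : g = s * h := lri_inj (e1.symm.trans hsq)
      subst e4
      obtain ⟨δ, hδ, hδ'⟩ : ∃ δ : G, (δ = z ∨ δ = z⁻¹) ∧ g' = s * h * δ := by
        rcases e3 with e3 | e3
        · exact ⟨z, Or.inl rfl, e3⟩
        · exact ⟨z⁻¹, Or.inr rfl, e3⟩
      subst hδ'
      have e5 : e (s • t) = lri v (h * δ) := by
        rw [hR.sm, e2, lr_smul_i, ← mul_assoc, ← mul_assoc, hs, one_mul]
      rw [hsq, hh, e2] at d1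
      rw [hsq, hh, e5] at d2
      exact ⟨δ, hδ, Or.inr e2, d2, d1⟩
  obtain ⟨δ, hδ, k1, k2, k3⟩ := key r ht hr
  obtain ⟨δ', hδ', k1', k2', k3'⟩ := key r' ht' hr'
  have hδδ : δ' = δ := by
    rcases hδ with rfl | rfl
    · rcases hδ' with rfl | rfl
      · rfl
      · exact (C.ahead hSL hTFC k2 k3').elim
    · rcases hδ' with rfl | rfl
      · exact (C.ahead hSL hTFC k2' k3).elim
      · rfl
  subst hδδ
  have hsr : ∀ t : R.V, ∀ g : G, e t = lri v g → e (s • t) = lri v (s * g) := by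
    intro t g h1
    rw [hR.sm, h1, lr_smul_i]
  rcases k1 with k1 | k1 <;> rcases k1' with k1' | k1'
  · exact Or.inl (hR.bij.1 (k1'.trans k1.symm))
  · right
    apply hR.bij.1
    rw [k1', hsr r _ k1, mul_assoc]
  · right
    apply hR.bij.1
    rw [k1', hsr r _ k1, ← mul_assoc, ← mul_assoc, hs, one_mul]
  · exact Or.inl (hR.bij.1 (k1'.trans k1.symm))

end LrC

end Pool.Agent.Helper93.HZ
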