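import Pool.Agent.Helper95.HZ.LRf

/-! # HZ: LR, part 7: the counts -/

set_option autoImplicit false

open MulAction Pointwise

namespace Pool.Agent.Helper93.HZ

open Ctx

variable {G : Type} [Group G]

theorem lr_tri_mem (R : Cx G) {p q r x y w : R.V} (h : R.tri p q r)
    (hx : x ∈ ({p, q, r} : Set R.V)) (hy : y ∈ ({p, q, r} : Set R.V))
    (hw : w ∈ ({p, q, r} : Set R.V)) (n1 : x ≠ y) (n2 : y ≠ w) (n3 : x ≠ w) :
    R.tri x y w ∧ ({p, q, r} : Set R.V) = {x, y, w} := by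
  obtain ⟨h1, h2, h3, h4, h5⟩ := R.tri_perm h
  simp only [Set.mem_insert_iff, Set.mem_singleton_iff] at hx hy hw
  rcases hx with rfl | rfl | rfl <;> rcases hy with rfl | rfl | rfl <;>
    rcases hw with rfl | rfl | rfl <;>
    first
      | exact absurd rfl n1
      | exact absurd rfl n2
      | exact absurd rfl n3
      | exact ⟨by assumption, by
          ext t
          simp only [Set.mem_insert_iff, Set.mem_singleton_iff]
          try tauto⟩

namespace LrC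

variable {X : Ctx G} {v : X.V} {a : X.U} {z : G} {k : ℕ} (C : LrC X v a z k)
variable {R : Cx G} {e : R.V → LrW X v} (hR : LrR X v a z R e)

include C hR

/-- a triangle with three different bases is a lifted triangle -/
theorem tri_lt (hSL : ST_SL) (hTFC : ST_TFC) {p q r : R.V} (h : R.tri p q r)
    (n1 : lrbs (e p) ≠ lrbs (e q)) (n2 : lrbs (e q) ≠ lrbs (e r))
    (n3 : lrbs (e p) ≠ lrbs (e r)) : lrlt X v a z (e p) (e q) (e r) := by
  rcases (hR.tri p q r).1 h with h1 | h1 | h1 | h1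
  · exact h1
  · exact absurd (C.dt_bs hSL hTFC h1).1 n1
  · exact absurd (C.dt_bs hSL hTFC h1).1 n2
  · exact absurd (C.dt_bs hSL hTFC h1).1.symm n3

theorem lift_unique (hSL : ST_SL) (hTFC : ST_TFC) (hLEG : ST_LEG) {p q r p' q' r' : R.V}
    (h : lrlt X v a z (e p) (e q) (e r)) (h' : lrlt X v a z (e p') (e q') (e r'))
    (b1 : lrbs (e p') = lrbs (e p)) (b2 : lrbs (e q') = lrbs (e q))
    (b3 : lrbs (e r') = lrbs (e r)) : p' = p ∧ q' = q ∧ r' = r := by
  obtain ⟨t, c, k1, k2, k3, k4⟩ := C.lt_bs hSL hTFC h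
  obtain ⟨-, c', l1, l2, l3, l4⟩ := C.lt_bs hSL hTFC h'
  rw [b1, b2, b3] at l1
  rw [b1, b2] at l2
  rw [b2, b3] at l3
  rw [b3, b1] at l4
  have hcc : c' = c := (hLEG G X _ _ _ t).1.unique l1 k1
  subst hcc
  exact ⟨hR.bij.1 (l2.trans k2.symm), hR.bij.1 (l3.trans k3.symm), hR.bij.1 (l4.trans k4.symm)⟩

theorem delta1 (hSL : ST_SL) (hTFC : ST_TFC) (hLEG : ST_LEG) :
    rr R ≤ rr X.K + oc G {s : Set R.V | ∃ p q r, R.tri p q r ∧ lrbs (e p) = lrbs (e q) ∧
      s = {p, q, r}} := by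
  set A : Set (Set R.V) := {s | ∃ p q r, lrlt X v a z (e p) (e q) (e r) ∧ s = {p, q, r}} with hA
  set B : Set (Set R.V) := {s : Set R.V | ∃ p q r, R.tri p q r ∧ lrbs (e p) = lrbs (e q) ∧
      s = {p, q, r}} with hB
  have hbse : ∀ (g : G) (p : R.V), lrbs (e (g • p)) = g • lrbs (e p) := by
    intro g p
    rw [hR.sm, lrbs_smul]
  have hsub : {s : Set R.V | ∃ x y z, R.tri x y z ∧ s = {x, y, z}} ⊆ A ∪ B := by
    rintro s ⟨p, q, r, h, rfl⟩
    rcases (hR.tri p q r).1 h with h1 | h1 | h1 | h1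
    · exact Or.inl ⟨p, q, r, h1, rfl⟩
    · exact Or.inr ⟨p, q, r, h, (C.dt_bs hSL hTFC h1).1, rfl⟩
    · refine Or.inr ⟨q, r, p, (R.tri_perm h).1, (C.dt_bs hSL hTFC h1).1, ?_⟩
      ext t
      simp only [Set.mem_insert_iff, Set.mem_singleton_iff]
      tauto
    · refine Or.inr ⟨r, p, q, (R.tri_perm h).2.1, (C.dt_bs hSL hTFC h1).1, ?_⟩
      ext t
      simp only [Set.mem_insert_iff, Set.mem_singleton_iff]
      tauto
  have hBf : FinOrb G B := by
    refine FinOrb.mono R.finT ?_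
    rintro s ⟨p, q, r, h, -, rfl⟩
    exact ⟨p, q, r, h, rfl⟩
  have hAc : FinOrb G A ∧ oc G A ≤ rr X.K := by
    refine oc_le_rel (fun (s : Set R.V) (S : Set X.V) => S = (fun p => lrbs (e p)) '' s)
      X.K.finT ?_ ?_
    · rintro s ⟨p, q, r, h, rfl⟩
      obtain ⟨t, -⟩ := C.lt_bs hSL hTFC h
      refine ⟨_, ⟨_, _, _, t, rfl⟩, ?_⟩
      rw [Set.image_insert_eq, Set.image_insert_eq, Set.image_singleton]
    · rintro s ⟨p, q, r, h, rfl⟩ s' ⟨p', q', r', h', rfl⟩ S - S' - hS hS' g hg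
      refine ⟨g, ?_⟩
      obtain ⟨t, -⟩ := C.lt_bs hSL hTFC h
      obtain ⟨n1, n2, n3⟩ := X.K.tri_ne t
      have hmem : ∀ x ∈ ({p, q, r} : Set R.V), ∃ x' ∈ ({p', q', r'} : Set R.V),
          lrbs (e x') = lrbs (e (g • x)) := by
        intro x hx
        have h1 : lrbs (e (g • x)) ∈ S' := by
          rw [← hg, hbse, hS]
          exact Set.smul_mem_smul_set ⟨x, hx, rfl⟩
        rw [hS'] at h1
        exact h1
      obtain ⟨p₁, m1, b1⟩ := hmem p (by simp)
      obtain ⟨q₁, m2, b2⟩ := hmem q (by simp)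
      obtain ⟨r₁, m3, b3⟩ := hmem r (by simp)
      rw [hbse] at b1 b2 b3
      have hn1 : lrbs (e p₁) ≠ lrbs (e q₁) := by
        rw [b1, b2]; exact fun h => n1 (smul_left_cancel g h)
      have hn2 : lrbs (e q₁) ≠ lrbs (e r₁) := by
        rw [b2, b3]; exact fun h => n2 (smul_left_cancel g h)
      have hn3 : lrbs (e p₁) ≠ lrbs (e r₁) := by
        rw [b1, b3]; exact fun h => n3 (smul_left_cancel g h)
      obtain ⟨k1, k2⟩ := lr_tri_mem R (tri_of_lt hR h') m1 m2 m3 (fun e => hn1 (by rw [e]))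
        (fun e => hn2 (by rw [e])) (fun e => hn3 (by rw [e]))
      have k3 := C.tri_lt hR hSL hTFC k1 hn1 hn2 hn3
      have k4 : R.tri (g • p) (g • q) (g • r) := R.smul_tri g _ _ _ (tri_of_lt hR h)
      have k5 := C.tri_lt hR hSL hTFC k4 (by rw [hbse, hbse, ← b1, ← b2]; exact hn1)
        (by rw [hbse, hbse, ← b2, ← b3]; exact hn2) (by rw [hbse, hbse, ← b1, ← b3]; exact hn3)
      obtain ⟨l1, l2, l3⟩ := C.lift_unique hR hSL hTFC hLEG k5 k3 (by rw [b1, hbse])
        (by rw [b2, hbse]) (by rw [b3, hbse])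
      rw [k2, l1, l2, l3, Set.smul_set_insert, Set.smul_set_insert, Set.smul_set_singleton]
  calc rr R ≤ oc G (A ∪ B) := oc_mono (FinOrb.union hAc.1 hBf) hsub
    _ ≤ oc G A + oc G B := by
        unfold oc
        rw [Set.image_union]
        exact Set.ncard_union_le _ _
    _ ≤ rr X.K + oc G B := Nat.add_le_add_right hAc.2 _

end LrC

end Pool.Agent.Helper93.HZ
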